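import Pool.Agent.R293.OI

/-!
MP_ced2c5_an: two unital homomorphisms from `O_∞` with the same restriction of the state which are
not approximately conjugate by state preserving automorphisms.
-/

set_option autoImplicit false
set_option linter.unusedSectionVars false

noncomputable section

open TopologicalSpace
open scoped InnerProductSpace ComplexOrder

namespace Pool.Agent.R293.Ced

open Pool.CS Pool.CS.N_amp Pool.Agent.H327R4.Pure Pool.Agent.W658.ZS Pool.Agent.R293.OI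

/-- three letters -/
def ga : Z := Multiplicative.ofAdd 0
/-- three letters -/
def gb : Z := Multiplicative.ofAdd 1
/-- three letters -/
def gc : Z := Multiplicative.ofAdd 2

lemma gab : ga ≠ gb := by decide
lemma gac : ga ≠ gc := by decide
lemma gbc : gb ≠ gc := by decide

/-- the flip of two letters -/
def fl : Equiv.Perm Z := Equiv.swap ga gb

/-- the flip on words -/
def flw (w : Wd Z) : Wd Z := (w.1.map fl, w.2)

lemma fl_fl (x : Z) : fl (fl x) = x := by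
  have h := Equiv.swap_swap ga gb
  exact congrArg (fun e : Z ≃ Z => e x) h

lemma flw_flw (w : Wd Z) : flw (flw w) = w := by
  obtain ⟨l, g⟩ := w
  show ((l.map fl).map fl, g) = (l, g)
  rw [List.map_map]
  have : (fl ∘ fl : Z → Z) = id := funext fl_fl
  rw [this, List.map_id]

lemma flw_inj : Function.Injective flw := fun v w h => by rw [← flw_flw v, h, flw_flw]

/-- the unitary of the flip -/
def V : BB := WE flw flw_inj

lemma V_V : V * V = 1 := by
  unfold V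
  rw [WE_mul_WE]
  apply ext_dlt
  rintro ⟨w, y⟩
  rw [WE_dlt]
  show dlt (flw (flw w), y) = dlt (w, y)
  rw [flw_flw]

lemma star_V : star V = V := by
  have h1 : star V * V = 1 := by
    unfold V
    rw [star_WE, WR_mul_WE]
  calc star V = star V * (V * V) := by rw [V_V, mul_one]
    _ = V := by rw [← mul_assoc, h1, one_mul]

lemma V_s (x : Z) : V * sI x = sI (fl x) * V := by
  show V * s Unit x = s Unit (fl x) * V
  unfold V s
  rw [WE_mul_WE, WE_mul_WE]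
  exact WE_congr (by funext w; rfl) _ _

/-- `x ↦ V x V` -/
def AdV : BB →⋆ₐ[ℂ] BB where
  toFun x := V * x * V
  map_one' := by rw [mul_one, V_V]
  map_mul' x y := by
    calc V * (x * y) * V = V * x * (1 : BB) * y * V := by noncomm_ring
      _ = V * x * (V * V) * y * V := by rw [V_V]
      _ = V * x * V * (V * y * V) := by noncomm_ring
  map_zero' := by rw [mul_zero, zero_mul]
  map_add' x y := by rw [mul_add, add_mul]
  commutes' c := by
    show V * algebraMap ℂ BB c * V = algebraMap ℂ BB c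
    rw [← Algebra.commutes, mul_assoc, V_V, mul_one]
  map_star' x := by
    rw [star_mul, star_mul, star_V, mul_assoc]

lemma AdV_apply (x : BB) : AdV x = V * x * V := rfl

lemma AdV_s (x : Z) : AdV (sI x) = sI (fl x) := by
  rw [AdV_apply, V_s, mul_assoc, V_V, mul_one]

lemma AdV_cont : Continuous AdV := by
  show Continuous fun x : BB => V * x * V
  fun_prop

lemma AdV_mem {x : BB} (hx : x ∈ OO) : AdV x ∈ OO := by
  have h : OO ≤ OO.comap AdV := by
    apply OO_le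
    · exact OO_closed.preimage AdV_cont
    · intro x
      show AdV (sI x) ∈ OO
      rw [AdV_s]; exact s_mem _
  exact h hx

/-- the inclusion -/
def φ₁ : OO →⋆ₐ[ℂ] DD := StarSubalgebra.inclusion OO_le_DD

/-- the flip followed by the inclusion -/
def φ₂ : OO →⋆ₐ[ℂ] DD := (AdV.comp OO.subtype).codRestrict DD
  (fun x => OO_le_DD (AdV_mem x.2))

/-- first vector -/
def z1 : HH := dlt ((([ga], 1) : Wd Z), ())
/-- second vector, first part -/
def z2 : HH := dlt ((([gb], 1) : Wd Z), ())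
/-- second vector, second part -/
def z3 : HH := dlt ((([gc], gb) : Wd Z), ())

/-- the functional on all operators -/
def M (x : BB) : ℂ := (1 / 3 : ℂ) * (⟪z1, x z1⟫_ℂ + ⟪z2 + z3, x (z2 + z3)⟫_ℂ)

/-- the state -/
def μ : DD →ₗ[ℂ] ℂ where
  toFun x := M x
  map_add' x y := by
    show M ((x : BB) + y) = _
    unfold M
    rw [add_apply, add_apply, inner_add_right,
      inner_add_right _ ((x : BB) (z2 + z3))]
    ring
  map_smul' c x := by
    show M (c • (x : BB)) = _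
    unfold M
    rw [smul_apply, smul_apply, inner_smul_right,
      inner_smul_right]
    simp only [RingHom.id_apply, smul_eq_mul]
    ring

lemma n1 : ⟪z1, z1⟫_ℂ = 1 := by
  unfold z1; rw [inner_dlt_left, dlt_self]

lemma n23 : ⟪z2 + z3, z2 + z3⟫_ℂ = 2 := by
  have h22 : ⟪z2, z2⟫_ℂ = 1 := by unfold z2; rw [inner_dlt_left, dlt_self]
  have h33 : ⟪z3, z3⟫_ℂ = 1 := by unfold z3; rw [inner_dlt_left, dlt_self]
  have h23 : ⟪z2, z3⟫_ℂ = 0 := by
    unfold z2 z3; rw [inner_dlt_left, dlt_ne]; decide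
  have h32 : ⟪z3, z2⟫_ℂ = 0 := by
    unfold z2 z3; rw [inner_dlt_left, dlt_ne]; decide
  rw [inner_add_left, inner_add_right, inner_add_right, h22, h33, h23, h32]; norm_num

lemma star_inner (x : BB) (v w : HH) : ⟪v, (star x) w⟫_ℂ = ⟪x v, w⟫_ℂ := by
  rw [ContinuousLinearMap.star_eq_adjoint, ContinuousLinearMap.adjoint_inner_right]

lemma M_nonneg (x : BB) : 0 ≤ M (star x * x) := by
  have h : ∀ v : HH, ⟪v, (star x * x) v⟫_ℂ = ((‖x v‖ ^ 2 : ℝ) : ℂ) := by
    intro v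
    show ⟪v, (star x) (x v)⟫_ℂ = _
    rw [star_inner, inner_self_eq_norm_sq_to_K]; simp
  unfold M
  rw [h, h, ← Complex.ofReal_add]
  have h3 : (1 / 3 : ℂ) = ((1 / 3 : ℝ) : ℂ) := by push_cast; rfl
  rw [h3, ← Complex.ofReal_mul, Complex.zero_le_real]
  positivity

lemma M_one : M 1 = 1 := by
  unfold M
  show (1 / 3 : ℂ) * (⟪z1, z1⟫_ℂ + ⟪z2 + z3, z2 + z3⟫_ℂ) = 1
  rw [n1, n23]; norm_num

lemma M_bound (x : BB) : ‖M x‖ ≤ ‖x‖ := by
  have hb : ∀ v : HH, ‖⟪v, x v⟫_ℂ‖ ≤ ‖x‖ * ‖⟪v, v⟫_ℂ‖ := by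
    intro v
    have h1 : ‖⟪v, v⟫_ℂ‖ = ‖v‖ * ‖v‖ := by
      rw [inner_self_eq_norm_sq_to_K]; simp [pow_two]
    calc ‖⟪v, x v⟫_ℂ‖ ≤ ‖v‖ * ‖x v‖ := norm_inner_le_norm _ _
      _ ≤ ‖v‖ * (‖x‖ * ‖v‖) := by gcongr; exact x.le_opNorm v
      _ = _ := by rw [h1]; ring
  unfold M
  rw [norm_mul]
  have h1 := hb z1
  have h2 := hb (z2 + z3)
  rw [n1] at h1
  rw [n23] at h2
  have h3 : ‖(1 / 3 : ℂ)‖ = 1 / 3 := by norm_num
  have h4 := norm_add_le ⟪z1, x z1⟫_ℂ ⟪z2 + z3, x (z2 + z3)⟫_ℂ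
  rw [h3]
  simp only [norm_one, mul_one, Complex.norm_ofNat] at h1 h2
  linarith

/-- the projection onto the words with last letter `g` -/
def Qi (g : Z) (l : List Z) : Wd Z × Unit := ((l, g), ())

lemma Qi_inj (g : Z) : Function.Injective (Qi g) := by
  intro l l' h
  exact congrArg (fun q : Wd Z × Unit => q.1.1) h

/-- the projection onto the words with last letter `g` -/
def Q (g : Z) : BB := (Ext (Qi g) (Qi_inj g)).comp (Res (Qi g) (Qi_inj g))

lemma Q_dlt (g : Z) (l : List Z) (k : Z) :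
    Q g (dlt ((l, k), ())) = if k = g then dlt ((l, k), ()) else 0 := by
  show Ext (Qi g) (Qi_inj g) (Res (Qi g) (Qi_inj g) (dlt ((l, k), ()))) = _
  by_cases h : k = g
  · subst h
    rw [if_pos rfl]
    have := Res_dlt (Qi k) (Qi_inj k) l
    rw [show (((l, k), ()) : Wd Z × Unit) = Qi k l from rfl, this, Ext_dlt]
  · rw [if_neg h, Res_dlt_ne, map_zero]
    intro a ha
    apply h
    exact (congrArg (fun q : Wd Z × Unit => q.1.2) ha).symm

lemma star_Q (g : Z) : star (Q g) = Q g := by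
  rw [ContinuousLinearMap.star_eq_adjoint]
  unfold Q
  rw [ContinuousLinearMap.adjoint_comp]
  have h1 : ContinuousLinearMap.adjoint (Ext (Qi g) (Qi_inj g)) = Res (Qi g) (Qi_inj g) :=
    ContinuousLinearMap.adjoint_adjoint _
  rw [h1]; rfl

lemma s_Q (g x : Z) : sI x * Q g = Q g * sI x := by
  apply ext_dlt
  rintro ⟨⟨l, k⟩, ⟨⟩⟩
  show sI x (Q g (dlt ((l, k), ()))) = Q g (sI x (dlt ((l, k), ())))
  have h : sI x (dlt ((l, k), ())) = dlt ((x :: l, k), ()) := WE_dlt _ _ _ _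
  rw [h, Q_dlt, Q_dlt]
  split_ifs
  · exact h
  · exact map_zero _

lemma Q_comm {b : BB} (hb : b ∈ OO) (g : Z) : b * Q g = Q g * b :=
  comm_of_gen _ (s_Q g) (fun x => by rw [star_Q]; exact s_Q g x) hb

lemma cross {b : BB} (hb : b ∈ OO) (l l' : List Z) {g g' : Z} (h : g ≠ g') :
    ⟪(dlt ((l, g), ()) : HH), b (dlt ((l', g'), ()))⟫_ℂ = 0 := by
  have e1 : (dlt ((l, g), ()) : HH) = Q g (dlt ((l, g), ())) := by rw [Q_dlt, if_pos rfl]
  rw [e1]
  have e2 : ⟪Q g (dlt ((l, g), ())), b (dlt ((l', g'), ()))⟫_ℂ =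
      ⟪(dlt ((l, g), ()) : HH), (star (Q g)) (b (dlt ((l', g'), ())))⟫_ℂ := (star_inner _ _ _).symm
  rw [e2, star_Q]
  have e3 := congrArg (fun T : BB => T (dlt ((l', g'), ()))) (Q_comm hb g)
  change b (Q g (dlt ((l', g'), ()))) = Q g (b (dlt ((l', g'), ()))) at e3
  rw [← e3, Q_dlt, if_neg (Ne.symm h), map_zero, inner_zero_right]

lemma M_OO {b : BB} (hb : b ∈ OO) :
    M b = (1 / 3 : ℂ) * (⟪z1, b z1⟫_ℂ + ⟪z2, b z2⟫_ℂ + ⟪z3, b z3⟫_ℂ) := by
  unfold M
  rw [map_add, inner_add_left, inner_add_right, inner_add_right]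
  have h1 : ⟪z2, b z3⟫_ℂ = 0 := cross hb _ _ (by decide)
  have h2 : ⟪z3, b z2⟫_ℂ = 0 := cross hb _ _ (by decide)
  rw [h1, h2]; ring

lemma V_z1 : V z1 = z2 := by
  unfold V z1 z2
  rw [WE_dlt]
  show dlt (([fl ga], 1), ()) = _
  unfold fl
  rw [Equiv.swap_apply_left]

lemma V_z2 : V z2 = z1 := by
  unfold V z1 z2
  rw [WE_dlt]
  show dlt (([fl gb], 1), ()) = _
  unfold fl
  rw [Equiv.swap_apply_right]

lemma V_z3 : V z3 = z3 := by
  unfold V z3
  rw [WE_dlt]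
  show dlt (([fl gc], gb), ()) = _
  unfold fl
  rw [Equiv.swap_apply_of_ne_of_ne gac.symm gbc.symm]

lemma inner_AdV (b : BB) (v : HH) : ⟪v, AdV b v⟫_ℂ = ⟪V v, b (V v)⟫_ℂ := by
  show ⟪v, V (b (V v))⟫_ℂ = _
  conv_lhs => rw [← star_V]
  rw [star_inner]
  rw [star_V]

theorem same (a : OO) : μ (φ₁ a) = μ (φ₂ a) := by
  show M (a : BB) = M (AdV (a : BB))
  rw [M_OO a.2, M_OO (AdV_mem a.2), inner_AdV, inner_AdV, inner_AdV, V_z1, V_z2, V_z3]
  ring

/-- the projection -/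
def e : OO := sO ga * star (sO ga)

lemma e_star : star e = e := by unfold e; rw [star_mul, star_star]

lemma e_e : e * e = e := by
  unfold e
  calc sO ga * star (sO ga) * (sO ga * star (sO ga)) = sO ga * (star (sO ga) * sO ga) *
        star (sO ga) := by noncomm_ring
    _ = _ := by rw [sO_self, mul_one]

lemma s_star_dlt (x y : Z) (l : List Z) (k : Z) :
    (star (sI x)) (dlt ((y :: l, k), ()) : HH) = if y = x then dlt ((l, k), ()) else 0 := by
  have h : (dlt ((y :: l, k), ()) : HH) = sI y (dlt ((l, k), ())) :=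
    (WE_dlt (sgm y) (sgm_inj y) (l, k) ()).symm
  rw [h]
  show (star (sI x) * sI y) (dlt ((l, k), ())) = _
  by_cases hxy : y = x
  · subst hxy
    rw [if_pos rfl, star_s_mul_s]; rfl
  · rw [if_neg hxy, star_s_mul_s_ne (Ne.symm hxy)]; rfl

lemma s_dlt' (x : Z) (l : List Z) (k : Z) :
    sI x (dlt ((l, k), ()) : HH) = dlt ((x :: l, k), ()) :=
  WE_dlt (sgm x) (sgm_inj x) (l, k) ()

/-- `s_x s_x*` on point masses -/
lemma ee_dlt (x y : Z) (l : List Z) (k : Z) :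
    (sI x * star (sI x)) (dlt ((y :: l, k), ()) : HH) =
      if y = x then dlt ((y :: l, k), ()) else 0 := by
  show sI x ((star (sI x)) (dlt ((y :: l, k), ()))) = _
  rw [s_star_dlt]
  split_ifs with h
  · rw [s_dlt', h]
  · exact map_zero _

lemma e_z1 : ((e : OO) : BB) z1 = z1 := by
  show (sI ga * star (sI ga)) z1 = z1
  unfold z1
  rw [ee_dlt, if_pos rfl]

lemma e_z23 : ((e : OO) : BB) (z2 + z3) = 0 := by
  show (sI ga * star (sI ga)) (z2 + z3) = 0
  unfold z2 z3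
  rw [map_add, ee_dlt, ee_dlt, if_neg gab.symm, if_neg gac.symm, add_zero]

lemma M_comm (x : BB) : M ((e : BB) * x) = M (x * (e : BB)) := by
  have hs : star (e : BB) = (e : BB) := congrArg Subtype.val e_star
  have h1 : ∀ v : HH, ⟪v, ((e : BB) * x) v⟫_ℂ = ⟪(e : BB) v, x v⟫_ℂ := by
    intro v
    show ⟪v, (e : BB) (x v)⟫_ℂ = _
    conv_lhs => rw [← hs]
    rw [star_inner]
  have h2 : ∀ v : HH, ⟪v, (x * (e : BB)) v⟫_ℂ = ⟪v, x ((e : BB) v)⟫_ℂ := fun v => rfl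
  unfold M
  rw [h1, h1, h2, h2, e_z1, e_z23, inner_zero_left, map_zero, inner_zero_right]

/-- the test element -/
def X : BB := sI gb * u Unit gb⁻¹ * star (sI gc)

lemma X_mem : X ∈ DD :=
  mul_mem (mul_mem (s_mem_DD _) (PP_mem _ (PP_u _))) (star_mem (s_mem_DD _))

lemma X_norm : ‖X‖ ≤ 1 := by
  have h1 : ‖sI gb‖ ≤ 1 := norm_s_le _
  have h2 : ‖star (sI gc)‖ ≤ 1 := by
    have h5 : ‖star (sI gc)‖ = ‖sI gc‖ := by
      rw [ContinuousLinearMap.star_eq_adjoint]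
      exact LinearIsometryEquiv.norm_map _ _
    rw [h5]; exact norm_s_le _
  have h3 : ‖u Unit (gb⁻¹ : Z)‖ ≤ 1 := by
    apply ContinuousLinearMap.opNorm_le_bound _ zero_le_one
    intro f
    rw [one_mul]
    exact (norm_Ext _ _ f).le
  calc ‖X‖ ≤ ‖sI gb * u Unit gb⁻¹‖ * ‖star (sI gc)‖ := norm_mul_le _ _
    _ ≤ ‖sI gb‖ * ‖u Unit gb⁻¹‖ * ‖star (sI gc)‖ := by gcongr; exact norm_mul_le _ _
    _ ≤ 1 * 1 * 1 := by gcongr
    _ = 1 := by norm_num

lemma X_z1 : X z1 = 0 := by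
  show sI gb (u Unit gb⁻¹ ((star (sI gc)) z1)) = 0
  unfold z1
  rw [s_star_dlt, if_neg gac, map_zero, map_zero]

lemma X_z23 : X (z2 + z3) = z2 := by
  show sI gb (u Unit gb⁻¹ ((star (sI gc)) (z2 + z3))) = z2
  unfold z2 z3
  rw [map_add, s_star_dlt, s_star_dlt, if_neg gbc, if_pos rfl, zero_add]
  have : u Unit gb⁻¹ (dlt (([], gb), ()) : HH) = dlt (([], 1), ()) := by
    unfold u
    rw [WE_dlt]
    simp [act]
  rw [this, s_dlt']

lemma M_X : M X = 1 / 3 := by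
  unfold M
  rw [X_z1, inner_zero_right, X_z23, inner_add_left]
  have h22 : ⟪z2, z2⟫_ℂ = 1 := by unfold z2; rw [inner_dlt_left, dlt_self]
  have h32 : ⟪z3, z2⟫_ℂ = 0 := by
    unfold z2 z3; rw [inner_dlt_left, dlt_ne]; decide
  rw [h22, h32]; norm_num

lemma φ₂_e : ((φ₂ e : DD) : BB) = sI gb * star (sI gb) := by
  show AdV (sI ga * star (sI ga)) = _
  rw [map_mul, map_star, AdV_s]
  unfold fl
  rw [Equiv.swap_apply_left]

theorem gen_key {D : Type} [CStarAlgebra D] (m : D →ₗ[ℂ] ℂ) (hb : ∀ y, ‖m y‖ ≤ ‖y‖)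
    (e f x : D) (hx : ‖x‖ ≤ 1) (h1 : ∀ y, m (e * y) = m (y * e)) (h2 : m (f * x) = 1 / 3)
    (h3 : m (x * f) = 0) (α : D ≃⋆ₐ[ℂ] D) (hα : ∀ x, m (α x) = m x) :
    1 / 6 ≤ ‖f - α e‖ := by
  have h1 : ∀ y : D, m (α e * y) = m (y * α e) := by
    intro y
    obtain ⟨y, rfl⟩ : ∃ y', α y' = y := ⟨α.symm y, α.apply_symm_apply y⟩
    rw [← map_mul, ← map_mul, hα, hα]
    exact h1 y
  have h4 : (1 / 3 : ℂ) = m ((f - α e) * x) - m (x * (f - α e)) := by
    rw [sub_mul, mul_sub, map_sub, map_sub, h1, h2, h3]; ring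
  have h6 : ‖(1 / 3 : ℂ)‖ ≤ ‖f - α e‖ + ‖f - α e‖ := by
    rw [h4]
    refine (norm_sub_le _ _).trans (add_le_add ?_ ?_)
    · calc ‖m ((f - α e) * x)‖ ≤ ‖(f - α e) * x‖ := hb _
        _ ≤ ‖f - α e‖ * ‖x‖ := norm_mul_le _ _
        _ ≤ ‖f - α e‖ * 1 := by gcongr
        _ = _ := mul_one _
    · calc ‖m (x * (f - α e))‖ ≤ ‖x * (f - α e)‖ := hb _
        _ ≤ ‖x‖ * ‖f - α e‖ := norm_mul_le _ _
        _ ≤ 1 * ‖f - α e‖ := by gcongr
        _ = _ := one_mul _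
  have h7 : ‖(1 / 3 : ℂ)‖ = 1 / 3 := by norm_num
  rw [h7] at h6
  linarith

lemma mu_fx : μ (φ₂ e * ⟨X, X_mem⟩) = 1 / 3 := by
  show M (((φ₂ e : DD) : BB) * X) = 1 / 3
  rw [φ₂_e]
  have : sI gb * star (sI gb) * X = X := by
    unfold X
    calc sI gb * star (sI gb) * (sI gb * u Unit gb⁻¹ * star (sI gc)) =
        sI gb * (star (sI gb) * sI gb) * u Unit gb⁻¹ * star (sI gc) := by noncomm_ring
      _ = _ := by rw [star_s_mul_s, mul_one]
  rw [this, M_X]

lemma mu_xf : μ (⟨X, X_mem⟩ * φ₂ e) = 0 := by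
  show M (X * ((φ₂ e : DD) : BB)) = 0
  rw [φ₂_e]
  have : X * (sI gb * star (sI gb)) = 0 := by
    unfold X
    calc sI gb * u Unit gb⁻¹ * star (sI gc) * (sI gb * star (sI gb)) =
        sI gb * u Unit gb⁻¹ * (star (sI gc) * sI gb) * star (sI gb) := by noncomm_ring
      _ = 0 := by rw [star_s_mul_s_ne gbc.symm]; simp
  rw [this]
  unfold M
  simp

theorem key (α : DD ≃⋆ₐ[ℂ] DD) (hα : ∀ x, μ (α x) = μ x) :
    1 / 6 ≤ ‖φ₂ e - α (φ₁ e)‖ :=
  gen_key μ (fun y => M_bound (y : BB)) (φ₁ e) (φ₂ e) ⟨X, X_mem⟩ X_norm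
    (fun y => M_comm (y : BB)) mu_fx mu_xf α hα

end Pool.Agent.R293.Ced
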