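import Pool.Agent.W658.ZS.Final
import Pool.Agent.H923R2.FZ.JS

/-!
Centered words in a reduced free product.
-/

set_option autoImplicit false
set_option linter.unusedSectionVars false

noncomputable section

open scoped InnerProductSpace ComplexOrder

namespace Pool.Agent.R293.FW

open Pool.Agent.H923R2.FZ

variable {J : Type} {D : J → Type} [∀ j, CStarAlgebra (D j)] {A : Type} [CStarAlgebra A]
  (φ : A →ₗ[ℂ] ℂ) (e : ∀ j, D j →⋆ₐ[ℂ] A)

/-- centered words -/
def Wrd (w : List (Σ j, D j)) : Prop :=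
  w.IsChain (fun a b => a.1 ≠ b.1) ∧ ∀ z ∈ w, φ (e z.1 z.2) = 0

/-- the value of a word -/
def val (w : List (Σ j, D j)) : A := (w.map fun z => e z.1 z.2).prod

lemma val_nil : val e [] = 1 := rfl

lemma val_cons (z : Σ j, D j) (w : List (Σ j, D j)) : val e (z :: w) = e z.1 z.2 * val e w := by
  unfold val; rw [List.map_cons, List.prod_cons]

lemma val_append (v w : List (Σ j, D j)) : val e (v ++ w) = val e v * val e w := by
  unfold val; rw [List.map_append, List.prod_append]

lemma val_snoc (y z : Σ j, D j) (w : List (Σ j, D j)) :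
    val e (y :: (w ++ [z])) = e y.1 y.2 * (val e w * e z.1 z.2) := by
  rw [val_cons, val_append, val_cons, val_nil, mul_one]

/-- the adjoint word -/
def adj (w : List (Σ j, D j)) : List (Σ j, D j) := (w.map fun z => ⟨z.1, star z.2⟩).reverse

lemma val_adj (w : List (Σ j, D j)) : val e (adj w) = star (val e w) := by
  induction w with
  | nil => show (1 : A) = star 1; rw [star_one]
  | cons z w ih =>
    unfold adj at *
    rw [List.map_cons, List.reverse_cons, val_append, ih, val_cons, val_cons, val_nil, mul_one,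
      star_mul, map_star]

lemma Wrd_nil : Wrd φ e [] := ⟨List.isChain_nil, by simp⟩

variable {φ e}

lemma Wrd.tail {z : Σ j, D j} {w : List (Σ j, D j)} (h : Wrd φ e (z :: w)) : Wrd φ e w :=
  ⟨h.1.tail, fun y hy => h.2 y (List.mem_cons_of_mem _ hy)⟩

variable (hφ : ∀ x, φ (star x) = star (φ x))
include hφ in
lemma Wrd.adj {w : List (Σ j, D j)} (h : Wrd φ e w) : Wrd φ e (adj w) := by
  constructor
  · unfold FW.adj
    rw [List.isChain_reverse, List.isChain_map]
    exact h.1.imp fun a b hab => hab.symm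
  · intro z hz
    unfold FW.adj at hz
    rw [List.mem_reverse, List.mem_map] at hz
    obtain ⟨y, hy, rfl⟩ := hz
    show φ (e y.1 (star y.2)) = 0
    rw [map_star, hφ, h.2 y hy, star_zero]

lemma Wrd.append {v w : List (Σ j, D j)} (hv : Wrd φ e v) (hw : Wrd φ e w)
    (h : ∀ x ∈ v.getLast?, ∀ y ∈ w.head?, x.1 ≠ y.1) : Wrd φ e (v ++ w) := by
  refine ⟨List.isChain_append.2 ⟨hv.1, hw.1, h⟩, fun z hz => ?_⟩
  rcases List.mem_append.1 hz with h1 | h1
  · exact hv.2 z h1
  · exact hw.2 z h1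

lemma Wrd.cons {z : Σ j, D j} {w : List (Σ j, D j)} (hw : Wrd φ e w) (hz : φ (e z.1 z.2) = 0)
    (h : ∀ y ∈ w.head?, z.1 ≠ y.1) : Wrd φ e (z :: w) := by
  refine ⟨List.isChain_cons.2 ⟨fun y hy => h y hy, hw.1⟩, fun y hy => ?_⟩
  rcases List.mem_cons.1 hy with rfl | h1
  · exact hz
  · exact hw.2 y h1

variable (φ e)

/-- span of the words starting with `k` -/
def V (k : J) : Submodule ℂ A :=
  Submodule.span ℂ {x | ∃ (a : D k) (w : List (Σ j, D j)), Wrd φ e (⟨k, a⟩ :: w) ∧
    x = val e (⟨k, a⟩ :: w)}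

/-- span of the words starting with a letter not in `k` -/
def V' (k : J) : Submodule ℂ A :=
  Submodule.span ℂ {x | ∃ (j : J) (a : D j) (w : List (Σ j, D j)), j ≠ k ∧
    Wrd φ e (⟨j, a⟩ :: w) ∧ x = val e (⟨j, a⟩ :: w)}

/-- span of the words -/
def D0 : Submodule ℂ A := Submodule.span ℂ {x | ∃ w, Wrd φ e w ∧ x = val e w}

variable {φ e}

lemma mem_V {k : J} {a : D k} {w : List (Σ j, D j)} (h : Wrd φ e (⟨k, a⟩ :: w)) :
    val e (⟨k, a⟩ :: w) ∈ V φ e k := Submodule.subset_span ⟨a, w, h, rfl⟩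

lemma mem_V' {k j : J} {a : D j} {w : List (Σ j, D j)} (hj : j ≠ k)
    (h : Wrd φ e (⟨j, a⟩ :: w)) : val e (⟨j, a⟩ :: w) ∈ V' φ e k :=
  Submodule.subset_span ⟨j, a, w, hj, h, rfl⟩

lemma mem_D0 {w : List (Σ j, D j)} (h : Wrd φ e w) : val e w ∈ D0 φ e :=
  Submodule.subset_span ⟨w, h, rfl⟩

lemma V_le_D0 (k : J) : V φ e k ≤ D0 φ e := by
  refine Submodule.span_le.2 ?_
  rintro x ⟨a, w, h, rfl⟩
  exact mem_D0 h

lemma V_le_V' {k j : J} (h : j ≠ k) : V φ e j ≤ V' φ e k := by
  refine Submodule.span_le.2 ?_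
  rintro x ⟨a, w, hw, rfl⟩
  exact mem_V' h hw

/-- the centered part of a letter -/
def cen (φ : A →ₗ[ℂ] ℂ) (e : ∀ j, D j →⋆ₐ[ℂ] A) {k : J} (a : D k) : D k := a - φ (e k a) • 1

section

variable (h1 : φ 1 = 1)
include h1

lemma phi_cen {k : J} (a : D k) : φ (e k (cen φ e a)) = 0 := by
  unfold cen
  rw [map_sub, map_smul, map_one, map_sub, map_smul, h1, smul_eq_mul, mul_one, sub_self]

omit h1 in
lemma e_cen {k : J} (a : D k) : e k a = e k (cen φ e a) + φ (e k a) • 1 := by
  unfold cen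
  rw [map_sub, map_smul, map_one, sub_add_cancel]

/-- multiplication of a word by a letter, from the left -/
lemma left_mul {k : J} (a : D k) {w : List (Σ j, D j)} (hw : Wrd φ e w) :
    e k a * val e w ∈ D0 φ e := by
  rcases w with _ | ⟨⟨j, b⟩, w⟩
  · rw [val_nil, mul_one, e_cen (φ := φ) a]
    refine add_mem ?_ (Submodule.smul_mem _ _ (mem_D0 (Wrd_nil φ e)))
    have h2 : Wrd φ e [⟨k, cen φ e a⟩] := Wrd.cons (Wrd_nil φ e) (phi_cen h1 a) (by simp)
    have h3 := mem_D0 h2
    rwa [val_cons, val_nil, mul_one] at h3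
  · by_cases hjk : j = k
    · subst hjk
      rw [val_cons, ← mul_assoc]
      show e j a * e j b * val e w ∈ _
      rw [← map_mul, e_cen (φ := φ) (a * b), add_mul, smul_mul_assoc, one_mul]
      refine add_mem ?_ (Submodule.smul_mem _ _ (mem_D0 hw.tail))
      have h2 : Wrd φ e (⟨j, cen φ e (a * b)⟩ :: w) :=
        Wrd.cons hw.tail (phi_cen h1 _) (fun y hy => by
          have := List.isChain_cons.1 hw.1
          exact this.1 y hy)
      have h3 := mem_D0 h2
      rwa [val_cons] at h3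
    · rw [e_cen (φ := φ) a, add_mul, smul_mul_assoc, one_mul]
      refine add_mem ?_ (Submodule.smul_mem _ _ (mem_D0 hw))
      have h2 : Wrd φ e (⟨k, cen φ e a⟩ :: ⟨j, b⟩ :: w) :=
        Wrd.cons hw (phi_cen h1 _) (fun y hy => by
          simp only [List.head?_cons, Option.mem_def, Option.some.injEq] at hy
          subst hy
          exact fun h => hjk h.symm)
      have h3 := mem_D0 h2
      rwa [val_cons] at h3

lemma D0_left {k : J} (a : D k) {x : A} (hx : x ∈ D0 φ e) : e k a * x ∈ D0 φ e := by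
  induction hx using Submodule.span_induction with
  | mem x h => obtain ⟨w, hw, rfl⟩ := h; exact left_mul h1 a hw
  | zero => rw [mul_zero]; exact zero_mem _
  | add x y _ _ hx hy => rw [mul_add]; exact add_mem hx hy
  | smul c x _ hx => rw [mul_smul_comm]; exact Submodule.smul_mem _ _ hx

lemma adjoin_le_D0' {x : A} (h2 : x ∈ Algebra.adjoin ℂ (⋃ j, Set.range (e j))) :
    ∀ y ∈ D0 φ e, x * y ∈ D0 φ e := by
  induction h2 using Algebra.adjoin_induction with
  | mem x h =>
    rw [Set.mem_iUnion] at h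
    obtain ⟨j, b, rfl⟩ := h
    exact fun y hy => D0_left h1 b hy
  | algebraMap r =>
    intro y hy
    rw [Algebra.algebraMap_eq_smul_one, smul_one_mul]
    exact Submodule.smul_mem _ _ hy
  | add x y _ _ hx hy =>
    intro z hz
    rw [add_mul]
    exact add_mem (hx z hz) (hy z hz)
  | mul x y _ _ hx hy =>
    intro z hz
    rw [mul_assoc]
    exact hx _ (hy z hz)

lemma adjoin_le_D0 {x : A} (hx : x ∈ StarAlgebra.adjoin ℂ (⋃ j, Set.range (e j))) :
    x ∈ D0 φ e := by
  have h2 : x ∈ Algebra.adjoin ℂ (⋃ j, Set.range (e j)) := by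
    have h3 : x ∈ (StarAlgebra.adjoin ℂ (⋃ j, Set.range (e j))).toSubalgebra := hx
    rw [StarAlgebra.adjoin_toSubalgebra] at h3
    have h4 : (⋃ j, Set.range (e j)) ∪ star (⋃ j, Set.range (e j)) =
        ⋃ j, Set.range (e j) := by
      rw [Set.union_eq_left]
      intro y hy
      rw [Set.mem_star, Set.mem_iUnion] at hy
      obtain ⟨j, b, hb⟩ := hy
      rw [Set.mem_iUnion]
      exact ⟨j, star b, by rw [map_star, hb, star_star]⟩
    rwa [h4] at h3
  have := adjoin_le_D0' h1 h2 1 (mem_D0 (Wrd_nil φ e))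
  rwa [mul_one] at this

lemma D0_dense (hgen : (StarAlgebra.adjoin ℂ (⋃ j, Set.range (e j))).topologicalClosure = ⊤)
    (x : A) {ε : ℝ} (hε : 0 < ε) : ∃ y ∈ D0 φ e, ‖x - y‖ < ε := by
  have h3 : x ∈ closure ((StarAlgebra.adjoin ℂ (⋃ j, Set.range (e j)) : StarSubalgebra ℂ A) :
      Set A) := by
    rw [← StarSubalgebra.topologicalClosure_coe, hgen]; exact StarSubalgebra.mem_top
  obtain ⟨y, hy, hxy⟩ := Metric.mem_closure_iff.1 h3 ε hε
  exact ⟨y, adjoin_le_D0 h1 hy, by rwa [← dist_eq_norm]⟩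

/-- multiplication of a word by a letter, from the right -/
lemma right_mul {k l : J} {a : D k} {w : List (Σ j, D j)} (hw : Wrd φ e (⟨k, a⟩ :: w))
    (hne : w ≠ []) (c : D l) : val e (⟨k, a⟩ :: w) * e l c ∈ V φ e k := by
  obtain ⟨w', z, rfl⟩ : ∃ w' z, w = w' ++ [z] := by
    rcases List.eq_nil_or_concat w with h | ⟨w', z, h⟩
    · exact absurd h hne
    · exact ⟨w', z, by rw [h, List.concat_eq_append]⟩
  have hw' : Wrd φ e ((⟨k, a⟩ :: w') ++ [z]) := hw
  have hw1 : Wrd φ e (⟨k, a⟩ :: w') :=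
    ⟨(List.isChain_append.1 hw'.1).1, fun y hy => hw'.2 y (List.mem_append_left _ hy)⟩
  obtain ⟨j, b⟩ := z
  by_cases hjl : j = l
  · subst hjl
    have h2 : val e (⟨k, a⟩ :: (w' ++ [⟨j, b⟩])) * e j c =
        val e (⟨k, a⟩ :: (w' ++ [⟨j, cen φ e (b * c)⟩])) + φ (e j (b * c)) •
          val e (⟨k, a⟩ :: w') := by
      rw [val_snoc, val_snoc, val_cons]
      show e k a * (val e w' * e j b) * e j c = e k a * (val e w' * e j (cen φ e (b * c))) +
        φ (e j (b * c)) • (e k a * val e w')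
      have h3 : e j b * e j c = e j (cen φ e (b * c)) + φ (e j (b * c)) • 1 := by
        rw [← map_mul]; exact e_cen _
      calc e k a * (val e w' * e j b) * e j c = e k a * val e w' * (e j b * e j c) := by
            noncomm_ring
        _ = _ := by rw [h3, mul_add, mul_smul_comm, mul_one]; simp only [mul_assoc]
    rw [h2]
    refine add_mem (mem_V ?_) (Submodule.smul_mem _ _ (mem_V hw1))
    show Wrd φ e ((⟨k, a⟩ :: w') ++ [⟨j, cen φ e (b * c)⟩])
    refine hw1.append (Wrd.cons (Wrd_nil φ e) (phi_cen h1 _) (by simp)) ?_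
    intro x hx y hy
    have h4 := (List.isChain_append.1 hw'.1).2.2 x hx ⟨j, b⟩ (by simp)
    simp only [List.head?_cons, Option.mem_def, Option.some.injEq] at hy
    subst hy
    exact h4
  · rw [e_cen (φ := φ) c, mul_add, mul_smul_comm, mul_one]
    refine add_mem ?_ (Submodule.smul_mem _ _ (mem_V hw))
    have h2 : Wrd φ e (((⟨k, a⟩ :: w') ++ [⟨j, b⟩]) ++ [⟨l, cen φ e c⟩]) := by
      refine hw'.append (Wrd.cons (Wrd_nil φ e) (phi_cen h1 _) (by simp)) ?_
      intro x hx y hy
      rw [List.getLast?_append, List.getLast?_singleton] at hx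
      simp only [Option.some_or, Option.mem_def, Option.some.injEq] at hx
      simp only [List.head?_cons, Option.mem_def, Option.some.injEq] at hy
      subst hx; subst hy
      exact hjl
    have h3 := mem_V (k := k) (a := a) (w := (w' ++ [⟨j, b⟩]) ++ [⟨l, cen φ e c⟩]) h2
    rw [show (⟨k, a⟩ :: ((w' ++ [⟨j, b⟩]) ++ [⟨l, cen φ e c⟩]) : List (Σ j, D j)) =
      (⟨k, a⟩ :: (w' ++ [⟨j, b⟩])) ++ [⟨l, cen φ e c⟩] from rfl, val_append,
      val_cons e ⟨l, cen φ e c⟩, val_nil, mul_one] at h3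
    exact h3

lemma conj_mem {k : J} (a : D k) (ha : φ (e k a) = 0) {q : A} (hq : q ∈ V' φ e k) :
    e k a * q * e k (star a) ∈ V φ e k := by
  induction hq using Submodule.span_induction with
  | mem x h =>
    obtain ⟨j, b, w, hj, hw, rfl⟩ := h
    have h2 : Wrd φ e (⟨k, a⟩ :: ⟨j, b⟩ :: w) := Wrd.cons hw ha (fun y hy => by
      simp only [List.head?_cons, Option.mem_def, Option.some.injEq] at hy
      subst hy
      exact fun h => hj h.symm)
    have h3 := right_mul h1 h2 (by simp) (star a)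
    rwa [val_cons] at h3
  | zero => rw [mul_zero, zero_mul]; exact zero_mem _
  | add x y _ _ hx hy => rw [mul_add, add_mul]; exact add_mem hx hy
  | smul c x _ hx => rw [mul_smul_comm, smul_mul_assoc]; exact Submodule.smul_mem _ _ hx

end

section free

variable (h1 : φ 1 = 1) (hfree : ∀ w, Wrd φ e w → w ≠ [] → φ (val e w) = 0)
include h1 hfree

omit h1 in
lemma phi_V {k : J} {p : A} (hp : p ∈ V φ e k) : φ p = 0 := by
  induction hp using Submodule.span_induction with
  | mem x h => obtain ⟨a, w, hw, rfl⟩ := h; exact hfree _ hw (by simp)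
  | zero => exact map_zero _
  | add x y _ _ hx hy => rw [map_add, hx, hy, add_zero]
  | smul c x _ hx => rw [map_smul, hx, smul_zero]

omit h1 in
lemma phi_V' {k : J} {p : A} (hp : p ∈ V' φ e k) : φ p = 0 := by
  induction hp using Submodule.span_induction with
  | mem x h => obtain ⟨j, a, w, hj, hw, rfl⟩ := h; exact hfree _ hw (by simp)
  | zero => exact map_zero _
  | add x y _ _ hx hy => rw [map_add, hx, hy, add_zero]
  | smul c x _ hx => rw [map_smul, hx, smul_zero]

lemma decomp (k : J) {x : A} (hx : x ∈ D0 φ e) :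
    ∃ p ∈ V φ e k, ∃ q ∈ V' φ e k, x = φ x • 1 + p + q := by
  induction hx using Submodule.span_induction with
  | mem x h =>
    obtain ⟨w, hw, rfl⟩ := h
    rcases w with _ | ⟨⟨j, a⟩, w⟩
    · exact ⟨0, zero_mem _, 0, zero_mem _, by rw [val_nil, h1]; simp⟩
    · rw [hfree _ hw (by simp)]
      by_cases hj : j = k
      · subst hj
        exact ⟨_, mem_V hw, 0, zero_mem _, by simp⟩
      · exact ⟨0, zero_mem _, _, mem_V' hj hw, by simp⟩
  | zero => exact ⟨0, zero_mem _, 0, zero_mem _, by simp⟩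
  | add x y _ _ hx hy =>
    obtain ⟨p, hp, q, hq, h⟩ := hx
    obtain ⟨p', hp', q', hq', h'⟩ := hy
    refine ⟨p + p', add_mem hp hp', q + q', add_mem hq hq', ?_⟩
    rw [map_add, add_smul]
    conv_lhs => rw [h, h']
    abel
  | smul c x _ hx =>
    obtain ⟨p, hp, q, hq, h⟩ := hx
    refine ⟨c • p, Submodule.smul_mem _ _ hp, c • q, Submodule.smul_mem _ _ hq, ?_⟩
    rw [map_smul, smul_assoc, ← smul_add, ← smul_add, ← h]

include hφ in
omit h1 in
lemma orth {k : J} {p q : A} (hp : p ∈ V φ e k) (hq : q ∈ V' φ e k) : φ (star q * p) = 0 := by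
  induction hp using Submodule.span_induction with
  | mem x h =>
    obtain ⟨a, w, hw, rfl⟩ := h
    induction hq using Submodule.span_induction with
    | mem y h =>
      obtain ⟨j, b, v, hj, hv, rfl⟩ := h
      rw [← val_adj, ← val_append]
      refine hfree _ ((hv.adj hφ).append hw ?_) (by simp)
      intro x hx y hy
      unfold FW.adj at hx
      rw [List.map_cons, List.reverse_cons, List.getLast?_append, List.getLast?_singleton] at hx
      simp only [Option.some_or, Option.mem_def, Option.some.injEq] at hx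
      simp only [List.head?_cons, Option.mem_def, Option.some.injEq] at hy
      subst hx; subst hy
      exact hj
    | zero => rw [star_zero, zero_mul, map_zero]
    | add x y _ _ hx hy => rw [star_add, add_mul, map_add, hx, hy, add_zero]
    | smul c x _ hx => rw [star_smul, smul_mul_assoc, map_smul, hx, smul_zero]
  | zero => rw [mul_zero, map_zero]
  | add x y _ _ hx hy => rw [mul_add, map_add, hx, hy, add_zero]
  | smul c x _ hx => rw [mul_smul_comm, map_smul, hx, smul_zero]

end free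

end Pool.Agent.R293.FW
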