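import Pool.Agent.R293.FW

/-!
Centralizer elements and a spectral gap in a reduced free product.
-/

set_option autoImplicit false
set_option linter.unusedSectionVars false

noncomputable section

open scoped InnerProductSpace ComplexOrder

namespace Pool.Agent.R293.FW

open Pool.Agent.H923R2.FZ

section gns

variable {A : Type} [CStarAlgebra A]

/-- a GNS map -/
structure IsGNS {H : Type} [NormedAddCommGroup H] [InnerProductSpace ℂ H] (φ : A →ₗ[ℂ] ℂ)
    (Λ : A →ₗ[ℂ] H) : Prop where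
  inner : ∀ x y, ⟪Λ x, Λ y⟫_ℂ = φ (star x * y)
  bound : ∀ x y, ‖Λ (x * y)‖ ≤ ‖x‖ * ‖Λ y‖

theorem exists_gns (φ : A →ₗ[ℂ] ℂ) (h1 : φ 1 = 1) (hpos : ∀ x, 0 ≤ φ (star x * x)) :
    ∃ (I : Type) (Λ : A →ₗ[ℂ] Pool.CS.l2 I), IsGNS φ Λ := by
  obtain ⟨I, i₀, π, hπ⟩ := Pool.Agent.W658.ZS.exists_rep A φ h1 hpos
  refine ⟨I, { toFun := fun x => π x (Pool.CS.dlt i₀)
               map_add' := fun x y => by rw [map_add]; rfl
               map_smul' := fun c x => by rw [map_smul]; rfl }, fun x y => ?_, fun x y => ?_⟩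
  · show ⟪π x (Pool.CS.dlt i₀), π y (Pool.CS.dlt i₀)⟫_ℂ = _
    rw [← hπ, map_mul, map_star, ContinuousLinearMap.star_eq_adjoint]
    show _ = ⟪_, (ContinuousLinearMap.adjoint (π x)) (π y _)⟫_ℂ
    rw [ContinuousLinearMap.adjoint_inner_right]
  · show ‖π (x * y) (Pool.CS.dlt i₀)‖ ≤ ‖x‖ * ‖π y (Pool.CS.dlt i₀)‖
    rw [map_mul]
    calc ‖π x (π y (Pool.CS.dlt i₀))‖ ≤ ‖π x‖ * ‖π y (Pool.CS.dlt i₀)‖ :=
          (π x).le_opNorm _
      _ ≤ _ := by gcongr; exact Pool.Agent.H188R3.norm_map_le' π x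

variable {H : Type} [NormedAddCommGroup H] [InnerProductSpace ℂ H] {φ : A →ₗ[ℂ] ℂ}
  {Λ : A →ₗ[ℂ] H} (hΛ : IsGNS φ Λ)
include hΛ

lemma IsGNS.phi_star (x : A) : φ (star x) = star (φ x) := by
  have h1 := hΛ.inner x 1
  have h2 := hΛ.inner 1 x
  rw [mul_one] at h1
  rw [star_one, one_mul] at h2
  rw [← h1, ← h2]
  exact (inner_conj_symm _ _).symm

lemma IsGNS.sq (x : A) : φ (star x * x) = ((‖Λ x‖ ^ 2 : ℝ) : ℂ) := by
  rw [← hΛ.inner, inner_self_eq_norm_sq_to_K]; simp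

lemma IsGNS.norm_one (h1 : φ 1 = 1) : ‖Λ 1‖ = 1 := by
  have h := hΛ.sq 1
  rw [star_one, one_mul, h1] at h
  have h2 : ‖Λ 1‖ ^ 2 = 1 := by exact_mod_cast h.symm
  nlinarith [norm_nonneg (Λ 1)]

lemma IsGNS.le (h1 : φ 1 = 1) (x : A) : ‖Λ x‖ ≤ ‖x‖ := by
  have := hΛ.bound x 1
  rwa [mul_one, hΛ.norm_one h1, mul_one] at this

lemma IsGNS.phi (x : A) : φ x = ⟪Λ 1, Λ x⟫_ℂ := by
  rw [hΛ.inner, star_one, one_mul]

lemma IsGNS.phi_le (h1 : φ 1 = 1) (x : A) : ‖φ x‖ ≤ ‖x‖ := by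
  rw [hΛ.phi]
  calc ‖⟪Λ 1, Λ x⟫_ℂ‖ ≤ ‖Λ 1‖ * ‖Λ x‖ := norm_inner_le_norm _ _
    _ ≤ 1 * ‖x‖ := by rw [hΛ.norm_one h1]; gcongr; exact hΛ.le h1 x
    _ = _ := one_mul _

end gns

variable {J : Type} {D : J → Type} [∀ j, CStarAlgebra (D j)] {A : Type} [CStarAlgebra A]
  {φ : A →ₗ[ℂ] ℂ} {e : ∀ j, D j →⋆ₐ[ℂ] A}

section central

variable (h1 : φ 1 = 1) (hfree : ∀ w, Wrd φ e w → w ≠ [] → φ (val e w) = 0)
  (hφ : ∀ x, φ (star x) = star (φ x))
include h1 hfree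

lemma phi_left_zero {k j : J} (a : D k) (b : D j) {w : List (Σ j, D j)}
    (hw : Wrd φ e (⟨j, b⟩ :: w)) (h : w ≠ [] ∨ j ≠ k) :
    φ (e k a * val e (⟨j, b⟩ :: w)) = 0 := by
  by_cases hjk : j = k
  · subst hjk
    have hne : w ≠ [] := by
      rcases h with h | h
      · exact h
      · exact absurd rfl h
    rw [val_cons, ← mul_assoc]
    show φ (e j a * e j b * val e w) = 0
    rw [← map_mul, e_cen (φ := φ) (a * b), add_mul, smul_mul_assoc, one_mul, map_add, map_smul,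
      hfree _ hw.tail hne, smul_zero, add_zero]
    have h2 : Wrd φ e (⟨j, cen φ e (a * b)⟩ :: w) :=
      Wrd.cons hw.tail (phi_cen h1 _) (fun y hy => by
        have := List.isChain_cons.1 hw.1
        exact this.1 y hy)
    have h3 := hfree _ h2 (by simp)
    rwa [val_cons] at h3
  · rw [e_cen (φ := φ) a, add_mul, smul_mul_assoc, one_mul, map_add, map_smul,
      hfree _ hw (by simp), smul_zero, add_zero]
    have h2 : Wrd φ e (⟨k, cen φ e a⟩ :: ⟨j, b⟩ :: w) :=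
      Wrd.cons hw (phi_cen h1 _) (fun y hy => by
        simp only [List.head?_cons, Option.mem_def, Option.some.injEq] at hy
        subst hy
        exact fun h => hjk h.symm)
    have h3 := hfree _ h2 (by simp)
    rwa [val_cons] at h3

include hφ

lemma central_word {k : J} (a : D k) (hc : ∀ x : D k, φ (e k (a * x)) = φ (e k (x * a)))
    {w : List (Σ j, D j)} (hw : Wrd φ e w) : φ (e k a * val e w) = φ (val e w * e k a) := by
  rcases w with _ | ⟨⟨j, b⟩, w⟩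
  · rw [val_nil, mul_one, one_mul]
  · by_cases h : w ≠ [] ∨ j ≠ k
    · rw [phi_left_zero h1 hfree a b hw h]
      have h2 : φ (val e (⟨j, b⟩ :: w) * e k a) =
          star (φ (e k (star a) * val e (adj (⟨j, b⟩ :: w)))) := by
        rw [← hφ, star_mul, val_adj, star_star, map_star, star_star]
      rw [h2]
      have h3 := hw.adj hφ
      obtain ⟨z, v, hv⟩ : ∃ z v, adj (⟨j, b⟩ :: w) = z :: v := by
        rcases h4 : adj (⟨j, b⟩ :: w) with _ | ⟨z, v⟩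
        · exfalso
          have := congrArg List.length h4
          unfold adj at this
          simp at this
        · exact ⟨z, v, rfl⟩
      obtain ⟨i, c⟩ := z
      rw [hv] at h3 ⊢
      rw [phi_left_zero h1 hfree _ _ h3, star_zero]
      by_cases hne : w = []
      · right
        have hjk : j ≠ k := by
          rcases h with h | h
          · exact absurd hne h
          · exact h
        subst hne
        have h5 : adj [(⟨j, b⟩ : Σ j, D j)] = [⟨j, star b⟩] := rfl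
        rw [h5] at hv
        have h6 : (⟨j, star b⟩ : Σ j, D j) = ⟨i, c⟩ := (List.cons.inj hv).1
        have h7 : j = i := congrArg Sigma.fst h6
        rw [← h7]; exact hjk
      · left
        intro hv0
        subst hv0
        have := congrArg List.length hv
        unfold adj at this
        simp only [List.map_cons, List.reverse_cons, List.length_append, List.length_reverse,
          List.length_map, List.length_cons, List.length_nil] at this
        apply hne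
        exact List.eq_nil_of_length_eq_zero (by omega)
    · push Not at h
      obtain ⟨hw0, hjk⟩ := h
      subst hw0; subst hjk
      rw [val_cons, val_nil, mul_one]
      show φ (e j a * e j b) = φ (e j b * e j a)
      rw [← map_mul, ← map_mul]
      exact hc b

theorem central {H : Type} [NormedAddCommGroup H] [InnerProductSpace ℂ H] {Λ : A →ₗ[ℂ] H}
    (hΛ : IsGNS φ Λ) (hgen : (StarAlgebra.adjoin ℂ (⋃ j, Set.range (e j))).topologicalClosure = ⊤)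
    {k : J} (a : D k) (hc : ∀ x : D k, φ (e k (a * x)) = φ (e k (x * a))) (y : A) :
    φ (e k a * y) = φ (y * e k a) := by
  have h0 : ∀ y ∈ D0 φ e, φ (e k a * y) = φ (y * e k a) := by
    intro y hy
    induction hy using Submodule.span_induction with
    | mem x h => obtain ⟨w, hw, rfl⟩ := h; exact central_word h1 hfree hφ a hc hw
    | zero => rw [mul_zero, zero_mul]
    | add x y _ _ hx hy => rw [mul_add, add_mul, map_add, map_add, hx, hy]
    | smul c x _ hx => rw [mul_smul_comm, smul_mul_assoc, map_smul, map_smul, hx]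
  have hle : ∀ ε : ℝ, 0 < ε → ‖φ (e k a * y) - φ (y * e k a)‖ ≤ 2 * ‖e k a‖ * ε := by
    intro ε hε
    obtain ⟨z, hz, hyz⟩ := D0_dense (φ := φ) h1 hgen y hε
    have e1 : φ (e k a * y) - φ (y * e k a) = φ (e k a * (y - z)) - φ ((y - z) * e k a) := by
      rw [mul_sub, sub_mul, map_sub, map_sub, h0 z hz]; ring
    rw [e1]
    calc ‖φ (e k a * (y - z)) - φ ((y - z) * e k a)‖ ≤
        ‖φ (e k a * (y - z))‖ + ‖φ ((y - z) * e k a)‖ := norm_sub_le _ _
      _ ≤ ‖e k a * (y - z)‖ + ‖(y - z) * e k a‖ :=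
        add_le_add (hΛ.phi_le h1 _) (hΛ.phi_le h1 _)
      _ ≤ ‖e k a‖ * ‖y - z‖ + ‖y - z‖ * ‖e k a‖ := add_le_add (norm_mul_le _ _) (norm_mul_le _ _)
      _ ≤ ‖e k a‖ * ε + ε * ‖e k a‖ := by gcongr
      _ = _ := by ring
  have h5 : ‖φ (e k a * y) - φ (y * e k a)‖ ≤ 0 := by
    by_contra hcon
    push Not at hcon
    set c := ‖φ (e k a * y) - φ (y * e k a)‖ with hc
    have := hle (c / (4 * (‖e k a‖ + 1))) (by positivity)
    have h6 : 2 * ‖e k a‖ * (c / (4 * (‖e k a‖ + 1))) < c := by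
      rw [mul_div_assoc', div_lt_iff₀ (by positivity)]
      nlinarith [norm_nonneg (e k a)]
    linarith
  exact sub_eq_zero.1 (norm_le_zero_iff.1 h5)

end central

section gap

variable (h1 : φ 1 = 1) (hfree : ∀ w, Wrd φ e w → w ≠ [] → φ (val e w) = 0)
  {H : Type} [NormedAddCommGroup H] [InnerProductSpace ℂ H] {Λ : A →ₗ[ℂ] H} (hΛ : IsGNS φ Λ)
include h1 hfree hΛ

lemma orthΛ {k : J} {p q : A} (hp : p ∈ V φ e k) (hq : q ∈ V' φ e k) : ⟪Λ q, Λ p⟫_ℂ = 0 := by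
  rw [hΛ.inner]; exact orth hΛ.phi_star hfree hp hq

lemma pyth {k : J} {p q : A} (hp : p ∈ V φ e k) (hq : q ∈ V' φ e k) :
    ‖Λ (p + q)‖ ^ 2 = ‖Λ p‖ ^ 2 + ‖Λ q‖ ^ 2 := by
  rw [map_add, add_comm (Λ p), pow_two, pow_two, pow_two,
    norm_add_sq_eq_norm_sq_add_norm_sq_of_inner_eq_zero _ _ (orthΛ h1 hfree hΛ hp hq), add_comm]

/-- one step of the spectral gap -/
lemma gap_step {k : J} (a : D k) (hu : star a * a = 1) (ha : φ (e k a) = 0)
    (hc : ∀ y : A, φ (e k a * y) = φ (y * e k a)) {p q : A} (hp : p ∈ V φ e k)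
    (hq : q ∈ V' φ e k) {δ : ℝ} (hδ : ‖(p + q) * e k a - e k a * (p + q)‖ ≤ δ) (hu' : a * star a = 1) :
    ‖Λ q‖ ≤ ‖Λ p‖ + δ := by
  have hua : e k a * e k (star a) = 1 := by rw [← map_mul, hu', map_one]
  have hau : e k (star a) * e k a = 1 := by rw [← map_mul, hu, map_one]
  have hiso : ∀ x, ‖Λ (e k a * x * e k (star a))‖ = ‖Λ x‖ := by
    intro x
    have h2 : φ (star (e k a * x * e k (star a)) * (e k a * x * e k (star a))) =
        φ (star x * x) := by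
      have e1 : star (e k a * x * e k (star a)) * (e k a * x * e k (star a)) =
          e k a * (star x * x * e k (star a)) := by
        rw [star_mul, star_mul, ← map_star, ← map_star, star_star]
        calc e k a * (star x * e k (star a)) * (e k a * x * e k (star a)) =
            e k a * star x * (e k (star a) * e k a) * x * e k (star a) := by noncomm_ring
          _ = _ := by rw [hau]; noncomm_ring
      rw [e1, hc, mul_assoc, hau, mul_one]
    rw [hΛ.sq, hΛ.sq] at h2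
    have h3 : ‖Λ (e k a * x * e k (star a))‖ ^ 2 = ‖Λ x‖ ^ 2 := by exact_mod_cast h2
    exact (sq_eq_sq₀ (norm_nonneg _) (norm_nonneg _)).1 h3
  have hnu : ‖e k (star a)‖ ≤ 1 := by
    have h3 : ‖star (e k (star a)) * e k (star a)‖ ≤ 1 := by
      rw [← map_star, star_star, hua]
      rcases subsingleton_or_nontrivial A with h | h
      · rw [Subsingleton.elim (1 : A) 0, norm_zero]; exact zero_le_one
      · exact CStarRing.norm_one.le
    rw [CStarRing.norm_star_mul_self] at h3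
    nlinarith [norm_nonneg (e k (star a))]
  -- `a (p+q) a* - (p+q)` is small
  have hsmall : ‖Λ ((p + q) - e k a * (p + q) * e k (star a))‖ ≤ δ := by
    have e2 : (p + q) - e k a * (p + q) * e k (star a) =
        ((p + q) * e k a - e k a * (p + q)) * e k (star a) := by
      rw [sub_mul, mul_assoc (p + q), hua, mul_one]
    rw [e2]
    refine (hΛ.le h1 _).trans ((norm_mul_le _ _).trans ?_)
    calc _ ≤ δ * 1 := mul_le_mul hδ hnu (norm_nonneg _) ((norm_nonneg _).trans hδ)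
      _ = δ := mul_one _
  have hqa : e k a * q * e k (star a) ∈ V φ e k := conj_mem h1 a ha hq
  have hin : ⟪Λ q, Λ q⟫_ℂ = ⟪Λ q, Λ (e k a * p * e k (star a))⟫_ℂ +
      ⟪Λ q, Λ ((p + q) - e k a * (p + q) * e k (star a))⟫_ℂ := by
    have h4 : ⟪Λ q, Λ p⟫_ℂ = 0 := orthΛ h1 hfree hΛ hp hq
    have h5 : ⟪Λ q, Λ (e k a * q * e k (star a))⟫_ℂ = 0 := orthΛ h1 hfree hΛ hqa hq
    have h6 : e k a * (p + q) * e k (star a) = e k a * p * e k (star a) +
        e k a * q * e k (star a) := by rw [mul_add, add_mul]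
    rw [h6, map_sub, map_add, map_add, inner_sub_right, inner_add_right, inner_add_right, h4, h5]
    ring
  have h7 : ‖Λ q‖ * ‖Λ q‖ ≤ ‖Λ q‖ * (‖Λ p‖ + δ) := by
    have h8 : ‖⟪Λ q, Λ q⟫_ℂ‖ = ‖Λ q‖ * ‖Λ q‖ := by
      rw [inner_self_eq_norm_sq_to_K]; simp [pow_two]
    rw [← h8, hin]
    refine (norm_add_le _ _).trans ?_
    rw [mul_add (‖Λ q‖)]
    refine add_le_add ?_ ?_
    · refine (norm_inner_le_norm _ _).trans ?_
      rw [hiso]
    · refine (norm_inner_le_norm _ _).trans ?_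
      gcongr
  rcases (norm_nonneg (Λ q)).eq_or_lt with h | h
  · rw [← h]
    have : 0 ≤ δ := (norm_nonneg _).trans hδ
    positivity
  · exact le_of_mul_le_mul_left h7 h

/-- the spectral gap for three free unitaries in the centralizer, on the dense subspace -/
lemma gap0 (i : Fin 3 → J) (hi : Function.Injective i) (a : ∀ m, D (i m))
    (hu : ∀ m, star (a m) * a m = 1) (hu' : ∀ m, a m * star (a m) = 1)
    (ha : ∀ m, φ (e (i m) (a m)) = 0)
    (hc : ∀ m, ∀ y : A, φ (e (i m) (a m) * y) = φ (y * e (i m) (a m))) {x : A}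
    (hx : x ∈ D0 φ e) {δ : ℝ} (hδ : ∀ m, ‖x * e (i m) (a m) - e (i m) (a m) * x‖ ≤ δ) :
    ‖Λ x - φ x • Λ 1‖ ≤ 7 * δ := by
  choose p hp q hq hpq using fun m => decomp h1 hfree (i m) hx
  have hδ0 : 0 ≤ δ := (norm_nonneg _).trans (hδ 0)
  set y : A := x - φ x • 1 with hy
  have hyΛ : Λ x - φ x • Λ 1 = Λ y := by rw [hy, map_sub, map_smul]
  have hyp : ∀ m, y = p m + q m := by
    intro m
    rw [hy]
    conv_lhs => rw [hpq m]
    rw [map_add, map_add, map_smul, h1, phi_V hfree (hp m), phi_V' hfree (hq m)]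
    simp only [smul_eq_mul, mul_one, add_zero]
    abel
  have hstep : ∀ m, ‖Λ (q m)‖ ≤ ‖Λ (p m)‖ + δ := by
    intro m
    refine gap_step h1 hfree hΛ (a m) (hu m) (ha m) (hc m) (hp m) (hq m) ?_ (hu' m)
    rw [← hyp m, hy, sub_mul, mul_sub, smul_mul_assoc, one_mul, mul_smul_comm, mul_one,
      sub_sub_sub_cancel_right]
    exact hδ m
  have hpy : ∀ m, ‖Λ y‖ ^ 2 = ‖Λ (p m)‖ ^ 2 + ‖Λ (q m)‖ ^ 2 := by
    intro m
    rw [hyp m]
    exact pyth h1 hfree hΛ (hp m) (hq m)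
  have hpm : ∀ m, ‖Λ y‖ ^ 2 - 2 * ‖Λ y‖ * δ - δ ^ 2 ≤ 2 * ‖Λ (p m)‖ ^ 2 := by
    intro m
    have h3 := hpy m
    have h4 := hstep m
    have h5 : ‖Λ (p m)‖ ≤ ‖Λ y‖ := by
      have := sq_nonneg ‖Λ (q m)‖
      exact abs_le_of_sq_le_sq' (by linarith) (norm_nonneg _) |>.2
    nlinarith [norm_nonneg (Λ (q m)), norm_nonneg (Λ (p m)), norm_nonneg (Λ y)]
  -- Bessel
  have hb : ‖Λ (p 0)‖ ^ 2 + ‖Λ (p 1)‖ ^ 2 + ‖Λ (p 2)‖ ^ 2 ≤ ‖Λ y‖ ^ 2 := by
    have ho : ∀ m n, m ≠ n → ⟪Λ (p m), Λ (p n)⟫_ℂ = 0 := by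
      intro m n hmn
      exact orthΛ h1 hfree hΛ (hp n) (V_le_V' (fun h => hmn (hi h)) (hp m))
    have hoy : ∀ m, ⟪Λ (p m), Λ y⟫_ℂ = ((‖Λ (p m)‖ ^ 2 : ℝ) : ℂ) := by
      intro m
      have h3 : ⟪Λ (q m), Λ (p m)⟫_ℂ = 0 := orthΛ h1 hfree hΛ (hp m) (hq m)
      have h4 : ⟪Λ (p m), Λ (q m)⟫_ℂ = 0 := by rw [← inner_conj_symm, h3, map_zero]
      conv_lhs => rw [hyp m]
      rw [map_add, inner_add_right, h4, add_zero, inner_self_eq_norm_sq_to_K]
      simp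
    have hoy' : ∀ m, ⟪Λ y, Λ (p m)⟫_ℂ = ((‖Λ (p m)‖ ^ 2 : ℝ) : ℂ) := by
      intro m
      rw [← inner_conj_symm, hoy, Complex.conj_ofReal]
    have hpp : ∀ m, ⟪Λ (p m), Λ (p m)⟫_ℂ = ((‖Λ (p m)‖ ^ 2 : ℝ) : ℂ) := by
      intro m
      rw [inner_self_eq_norm_sq_to_K]; simp
    have hyy : ⟪Λ y, Λ y⟫_ℂ = ((‖Λ y‖ ^ 2 : ℝ) : ℂ) := by
      rw [inner_self_eq_norm_sq_to_K]; simp
    have h5 : ((‖Λ y - Λ (p 0) - Λ (p 1) - Λ (p 2)‖ ^ 2 : ℝ) : ℂ) =
        ((‖Λ y‖ ^ 2 - (‖Λ (p 0)‖ ^ 2 + ‖Λ (p 1)‖ ^ 2 + ‖Λ (p 2)‖ ^ 2) : ℝ) : ℂ) := by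
      have h6 : ((‖Λ y - Λ (p 0) - Λ (p 1) - Λ (p 2)‖ ^ 2 : ℝ) : ℂ) =
          ⟪Λ y - Λ (p 0) - Λ (p 1) - Λ (p 2), Λ y - Λ (p 0) - Λ (p 1) - Λ (p 2)⟫_ℂ := by
        rw [inner_self_eq_norm_sq_to_K]; simp
      rw [h6]
      simp only [inner_sub_left, inner_sub_right, hoy, hoy', hpp, hyy,
        ho 0 1 (by decide), ho 1 0 (by decide), ho 0 2 (by decide), ho 2 0 (by decide),
        ho 1 2 (by decide), ho 2 1 (by decide)]
      push_cast
      ring
    have h7 := Complex.ofReal_injective h5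
    have h8 := sq_nonneg ‖Λ y - Λ (p 0) - Λ (p 1) - Λ (p 2)‖
    linarith
  have h8 : ‖Λ y‖ ^ 2 ≤ 6 * ‖Λ y‖ * δ + 3 * δ ^ 2 := by
    have := hpm 0
    have := hpm 1
    have := hpm 2
    nlinarith
  rw [hyΛ]
  by_contra hcon
  push Not at hcon
  nlinarith [norm_nonneg (Λ y)]

/-- the spectral gap for three free unitaries in the centralizer -/
theorem gap (hgen : (StarAlgebra.adjoin ℂ (⋃ j, Set.range (e j))).topologicalClosure = ⊤)
    (i : Fin 3 → J) (hi : Function.Injective i) (a : ∀ m, D (i m))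
    (hu : ∀ m, star (a m) * a m = 1) (hu' : ∀ m, a m * star (a m) = 1)
    (ha : ∀ m, φ (e (i m) (a m)) = 0)
    (hc : ∀ m, ∀ x : D (i m), φ (e (i m) (a m * x)) = φ (e (i m) (x * a m))) (x : A)
    {δ : ℝ} (hδ : ∀ m, ‖x * e (i m) (a m) - e (i m) (a m) * x‖ ≤ δ) :
    ‖Λ x - φ x • Λ 1‖ ≤ 7 * δ := by
  have hc' : ∀ m, ∀ y : A, φ (e (i m) (a m) * y) = φ (y * e (i m) (a m)) := fun m =>
    central h1 hfree hΛ.phi_star hΛ hgen (a m) (hc m)
  have hne : ∀ m, ‖e (i m) (a m)‖ ≤ 1 := by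
    intro m
    have h3 : ‖star (e (i m) (a m)) * e (i m) (a m)‖ ≤ 1 := by
      rw [← map_star, ← map_mul, hu, map_one]
      rcases subsingleton_or_nontrivial A with h | h
      · rw [Subsingleton.elim (1 : A) 0, norm_zero]; exact zero_le_one
      · exact CStarRing.norm_one.le
    rw [CStarRing.norm_star_mul_self] at h3
    nlinarith [norm_nonneg (e (i m) (a m))]
  refine le_of_forall_pos_le_add fun ε hε => ?_
  obtain ⟨z, hz, hxz⟩ := D0_dense (φ := φ) h1 hgen x (ε := ε / 16) (by positivity)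
  have hz2 : ∀ m, ‖z * e (i m) (a m) - e (i m) (a m) * z‖ ≤ δ + ε / 8 := by
    intro m
    have e1 : z * e (i m) (a m) - e (i m) (a m) * z =
        (x * e (i m) (a m) - e (i m) (a m) * x) - (x - z) * e (i m) (a m) +
          e (i m) (a m) * (x - z) := by noncomm_ring
    rw [e1]
    have h4 : ‖(x - z) * e (i m) (a m)‖ ≤ ε / 16 := by
      calc _ ≤ ‖x - z‖ * ‖e (i m) (a m)‖ := norm_mul_le _ _
        _ ≤ ε / 16 * 1 := mul_le_mul hxz.le (hne m) (norm_nonneg _) (by positivity)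
        _ = _ := mul_one _
    have h5 : ‖e (i m) (a m) * (x - z)‖ ≤ ε / 16 := by
      calc _ ≤ ‖e (i m) (a m)‖ * ‖x - z‖ := norm_mul_le _ _
        _ ≤ 1 * (ε / 16) := mul_le_mul (hne m) hxz.le (norm_nonneg _) zero_le_one
        _ = _ := one_mul _
    have h6 := norm_add_le ((x * e (i m) (a m) - e (i m) (a m) * x) - (x - z) * e (i m) (a m))
      (e (i m) (a m) * (x - z))
    have h7 := norm_sub_le (x * e (i m) (a m) - e (i m) (a m) * x) ((x - z) * e (i m) (a m))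
    have h8 := hδ m
    linarith
  have h9 := gap0 h1 hfree hΛ i hi a hu hu' ha hc' hz hz2
  have e2 : Λ x - φ x • Λ 1 = (Λ z - φ z • Λ 1) + Λ (x - z) - φ (x - z) • Λ 1 := by
    rw [map_sub, map_sub, sub_smul]; abel
  rw [e2]
  have h10 : ‖Λ (x - z)‖ ≤ ε / 16 := (hΛ.le h1 _).trans hxz.le
  have h11 : ‖φ (x - z) • Λ 1‖ ≤ ε / 16 := by
    rw [norm_smul, hΛ.norm_one h1, mul_one]
    exact (hΛ.phi_le h1 _).trans hxz.le
  have h12 := norm_sub_le ((Λ z - φ z • Λ 1) + Λ (x - z)) (φ (x - z) • Λ 1)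
  have h13 := norm_add_le (Λ z - φ z • Λ 1) (Λ (x - z))
  linarith

/-- no approximately central isometries with orthogonal ranges -/
theorem no_isoms (hgen : (StarAlgebra.adjoin ℂ (⋃ j, Set.range (e j))).topologicalClosure = ⊤)
    (i : Fin 3 → J) (hi : Function.Injective i) (a : ∀ m, D (i m))
    (hu : ∀ m, star (a m) * a m = 1) (hu' : ∀ m, a m * star (a m) = 1)
    (ha : ∀ m, φ (e (i m) (a m)) = 0)
    (hc : ∀ m, ∀ x : D (i m), φ (e (i m) (a m * x)) = φ (e (i m) (x * a m)))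
    (t : Fin 2 → A) (ht : ∀ n, star (t n) * t n = 1) (ht0 : star (t 0) * t 1 = 0)
    (hδ : ∀ n m, ‖t n * e (i m) (a m) - e (i m) (a m) * t n‖ ≤ 1 / 100) : False := by
  have h := fun n => gap h1 hfree hΛ hgen i hi a hu hu' ha hc (t n) (hδ n)
  have hn : ∀ n, ‖Λ (t n)‖ = 1 := by
    intro n
    have h3 := hΛ.sq (t n)
    rw [ht, h1] at h3
    have h4 : ‖Λ (t n)‖ ^ 2 = 1 := by exact_mod_cast h3.symm
    nlinarith [norm_nonneg (Λ (t n))]
  have hp : ∀ n, 93 / 100 ≤ ‖φ (t n)‖ := by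
    intro n
    have h3 := norm_sub_norm_le (Λ (t n)) (φ (t n) • Λ 1)
    rw [norm_smul, hΛ.norm_one h1, mul_one, hn] at h3
    have := h n
    linarith
  have h0 : ⟪Λ (t 0), Λ (t 1)⟫_ℂ = 0 := by rw [hΛ.inner, ht0, map_zero]
  have h5 : ⟪φ (t 0) • Λ 1, φ (t 1) • Λ 1⟫_ℂ =
      -⟪Λ (t 0) - φ (t 0) • Λ 1, φ (t 1) • Λ 1⟫_ℂ - ⟪Λ (t 0), Λ (t 1) - φ (t 1) • Λ 1⟫_ℂ := by
    rw [inner_sub_left, inner_sub_right, h0]; ring
  have h6 : ‖⟪φ (t 0) • Λ 1, φ (t 1) • Λ 1⟫_ℂ‖ = ‖φ (t 0)‖ * ‖φ (t 1)‖ := by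
    rw [inner_smul_left, inner_smul_right, hΛ.inner, star_one, one_mul, h1, mul_one, norm_mul,
      RCLike.norm_conj]
  have h7 : ‖⟪φ (t 0) • Λ 1, φ (t 1) • Λ 1⟫_ℂ‖ ≤ 14 / 100 := by
    rw [h5]
    have h8 := norm_sub_le (-⟪Λ (t 0) - φ (t 0) • Λ 1, φ (t 1) • Λ 1⟫_ℂ)
      ⟪Λ (t 0), Λ (t 1) - φ (t 1) • Λ 1⟫_ℂ
    rw [norm_neg] at h8
    have h9 : ‖⟪Λ (t 0) - φ (t 0) • Λ 1, φ (t 1) • Λ 1⟫_ℂ‖ ≤ 7 / 100 := by
      refine (norm_inner_le_norm _ _).trans ?_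
      have h10 : ‖φ (t 1) • Λ 1‖ ≤ 1 := by
        rw [norm_smul, hΛ.norm_one h1, mul_one, hΛ.phi]
        refine (norm_inner_le_norm _ _).trans ?_
        rw [hn, hΛ.norm_one h1, mul_one]
      have := h 0
      calc _ ≤ (7 * (1 / 100)) * 1 := mul_le_mul this h10 (norm_nonneg _) (by norm_num)
        _ = _ := by norm_num
    have h11 : ‖⟪Λ (t 0), Λ (t 1) - φ (t 1) • Λ 1⟫_ℂ‖ ≤ 7 / 100 := by
      refine (norm_inner_le_norm _ _).trans ?_
      rw [hn, one_mul]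
      have := h 1
      linarith
    linarith
  rw [h6] at h7
  have := mul_le_mul (hp 0) (hp 1) (by norm_num) (norm_nonneg _)
  linarith

end gap

end Pool.Agent.R293.FW
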