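import Pool.Agent.W658.ZS.Final

/-!
The Cuntz algebra `O_∞` inside a separable simple purely infinite C*-algebra `DD`, both on `ℓ²` of
the nonempty words over `ℤ`.
-/

set_option autoImplicit false
set_option linter.unusedSectionVars false

noncomputable section

open TopologicalSpace
open scoped InnerProductSpace ComplexOrder

namespace Pool.Agent.R293.OI

open Pool.CS Pool.CS.N_amp Pool.Agent.H327R4.Pure Pool.Agent.W658.ZS Pool.Agent.H188R3

/-- the group `ℤ` -/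
abbrev Z : Type := Multiplicative ℤ

/-- the Hilbert space -/
abbrev HH : Type := l2 (Wd Z × Unit)

/-- its bounded operators -/
abbrev BB : Type := BW Z Unit

lemma scal (T : l2 Unit →L[ℂ] l2 Unit) : T = (⟪(dlt () : l2 Unit), T (dlt ())⟫_ℂ) • 1 := by
  apply ext_dlt
  rintro ⟨⟩
  ext ⟨⟩
  rw [inner_dlt_left]
  show _ = T (dlt ()) () • (dlt () : l2 Unit) ()
  rw [dlt_self, smul_eq_mul, mul_one]

instance top_closed : IsClosed ((⊤ : StarSubalgebra ℂ (l2 Unit →L[ℂ] l2 Unit)) :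
    Set (l2 Unit →L[ℂ] l2 Unit)) := by
  rw [StarSubalgebra.coe_top]; exact isClosed_univ

lemma nt_unit : (1 : l2 Unit →L[ℂ] l2 Unit) ≠ 0 := by
  intro h
  have h2 := congrArg (fun T : l2 Unit →L[ℂ] l2 Unit => ‖T (dlt ())‖) h
  simp only [one_apply_eq_self, zero_apply, norm_zero, norm_dlt] at h2
  exact one_ne_zero h2

lemma top_simple : SimpleC (⊤ : StarSubalgebra ℂ (l2 Unit →L[ℂ] l2 Unit)) := by
  have hnt : Nontrivial (⊤ : StarSubalgebra ℂ (l2 Unit →L[ℂ] l2 Unit)) :=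
    ⟨⟨1, 0, fun h => nt_unit (congrArg Subtype.val h)⟩⟩
  apply simple_of_compress
  rintro ⟨b, hb⟩ hb0
  set c : ℂ := ⟪(dlt () : l2 Unit), b (dlt ())⟫_ℂ with hc
  have hbc : b = c • 1 := scal b
  have hc0 : c ≠ 0 := by
    intro h
    apply hb0
    apply Subtype.ext
    show b = 0
    rw [hbc, h, zero_smul]
  refine ⟨⟨c⁻¹ • 1, StarSubalgebra.mem_top⟩, Subtype.ext ?_⟩
  show star (c⁻¹ • (1 : l2 Unit →L[ℂ] l2 Unit)) * (star b * b) * (c⁻¹ • 1) = 1
  rw [hbc, star_smul, star_smul, star_one]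
  simp only [smul_mul_assoc, mul_smul_comm, one_mul, smul_smul]
  have : c⁻¹ * (c * star c * star c⁻¹) = 1 := by
    rw [star_inv₀]
    have h1 : star c ≠ 0 := star_ne_zero.2 hc0
    field_simp
  rw [this, one_smul]

/-- the purely infinite algebra -/
def DD : StarSubalgebra ℂ BB := Bt Z (⊤ : StarSubalgebra ℂ (l2 Unit →L[ℂ] l2 Unit))

instance DD_closed : IsClosed (DD : Set BB) := Bt_closed _

lemma BB_nt : (1 : BB) ≠ 0 := by
  intro h
  have h2 := congrArg (fun T : BB => ‖T (dlt (Om, ()))‖) h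
  simp only [one_apply_eq_self, zero_apply, norm_zero, norm_dlt] at h2
  exact one_ne_zero h2

instance DD_nt : Nontrivial DD := ⟨⟨1, 0, fun h => BB_nt (congrArg Subtype.val h)⟩⟩

lemma DD_compress (b : DD) (hb : b ≠ 0) : ∃ v : DD, star v * (star b * b) * v = 1 := by
  obtain ⟨v, hv, h1⟩ := compress (G := Z) _ top_simple (b : BB) b.2
    (fun h => hb (Subtype.ext h))
  exact ⟨⟨v, hv⟩, Subtype.ext h1⟩

lemma DD_simple : SimpleC DD := simple_of_compress DD_compress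

/-- the isometries -/
abbrev sI (x : Z) : BB := s Unit x

lemma ss_ne_one {x y : Z} (h : x ≠ y) : sI x * star (sI x) ≠ 1 := by
  intro h1
  have h2 : sI y = 0 := by
    calc sI y = sI x * star (sI x) * sI y := by rw [h1, one_mul]
      _ = sI x * (star (sI x) * sI y) := by rw [mul_assoc]
      _ = 0 := by rw [star_s_mul_s_ne h, mul_zero]
  have h3 := star_s_mul_s (Y := Unit) y
  rw [show s Unit y = 0 from h2, mul_zero] at h3
  exact BB_nt h3.symm

lemma g01 : (Multiplicative.ofAdd (0 : ℤ) : Z) ≠ Multiplicative.ofAdd 1 := by decide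

lemma s_mem_DD (x : Z) : sI x ∈ DD := PP_mem _ (PP_s x)

lemma DD_pi : PurelyInfinite DD := by
  refine pi_of_compress DD_compress ⟨⟨sI (Multiplicative.ofAdd 0), s_mem_DD _⟩,
    Subtype.ext (star_s_mul_s _), fun h => ?_⟩
  exact ss_ne_one g01 (congrArg Subtype.val h)

lemma DD_sep : SeparableSpace DD := by
  have h0 : IsSeparable ((⊤ : StarSubalgebra ℂ (l2 Unit →L[ℂ] l2 Unit)) :
      Set (l2 Unit →L[ℂ] l2 Unit)) := by
    have h1 : IsSeparable (Set.range (fun c : ℂ => c • (1 : l2 Unit →L[ℂ] l2 Unit))) :=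
      isSeparable_range (by fun_prop)
    refine h1.mono fun T _ => ⟨_, (scal T).symm⟩
  have h1 : IsSeparable (GG (⊤ : StarSubalgebra ℂ (l2 Unit →L[ℂ] l2 Unit)) : Set BB) := by
    have h2 : IsSeparable ((fun q : BB × (l2 Unit →L[ℂ] l2 Unit) =>
        q.1 * Amp Z q.2) '' (PP Z Unit ×ˢ ((⊤ : StarSubalgebra ℂ (l2 Unit →L[ℂ] l2 Unit)) :
          Set (l2 Unit →L[ℂ] l2 Unit)))) := by
      apply IsSeparable.image
      · exact ((PP_countable).isSeparable).prod h0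
      · exact continuous_fst.mul ((star_hom_continuous (Amp Z)).comp continuous_snd)
    refine h2.mono ?_
    rintro x ⟨p, hp, c, hc, rfl⟩
    exact ⟨(p, c), ⟨hp, hc⟩, rfl⟩
  have h3 : IsSeparable (closure (Submodule.span ℂ
      (GG (⊤ : StarSubalgebra ℂ (l2 Unit →L[ℂ] l2 Unit)) : Set BB) : Set BB)) := h1.span.closure
  have h4 : IsSeparable (DD : Set BB) := by
    refine h3.mono fun x hx => ?_
    have h5 : x ∈ closure ((B0 (⊤ : StarSubalgebra ℂ (l2 Unit →L[ℂ] l2 Unit)) :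
        StarSubalgebra ℂ BB) : Set BB) := by
      rw [← StarSubalgebra.topologicalClosure_coe]; exact hx
    exact h5
  exact h4.separableSpace

/-- the Cuntz algebra -/
def OO : StarSubalgebra ℂ BB := (StarAlgebra.adjoin ℂ (Set.range sI)).topologicalClosure

instance OO_closed : IsClosed (OO : Set BB) :=
  (StarAlgebra.adjoin ℂ (Set.range sI)).isClosed_topologicalClosure

lemma s_mem (x : Z) : sI x ∈ OO :=
  (StarAlgebra.adjoin ℂ (Set.range sI)).le_topologicalClosure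
    (StarAlgebra.subset_adjoin ℂ _ ⟨x, rfl⟩)

lemma OO_le (T : StarSubalgebra ℂ BB) (hT : IsClosed (T : Set BB)) (h : ∀ x, sI x ∈ T) :
    OO ≤ T := by
  refine StarSubalgebra.topologicalClosure_minimal (StarAlgebra.adjoin_le ?_) hT
  rintro _ ⟨x, rfl⟩
  exact h x

lemma OO_le_DD : OO ≤ DD := OO_le DD DD_closed s_mem_DD

instance OO_nt : Nontrivial OO := ⟨⟨1, 0, fun h => BB_nt (congrArg Subtype.val h)⟩⟩

instance OO_sep : SeparableSpace OO := by
  have h := DD_sep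
  have h4 : IsSeparable (DD : Set BB) := by
    have h3 : IsSeparable (Set.univ : Set DD) := isSeparable_univ_iff.2 inferInstance
    have h5 := h3.image (f := fun c : DD => (c : BB)) continuous_subtype_val
    exact h5.mono fun x hx => ⟨⟨x, hx⟩, Set.mem_univ _, rfl⟩
  have h6 : IsSeparable (OO : Set BB) := h4.mono OO_le_DD
  exact h6.separableSpace

/-- the generators in `OO` -/
def sO (x : Z) : OO := ⟨sI x, s_mem x⟩

lemma sO_self (x : Z) : star (sO x) * sO x = 1 := Subtype.ext (star_s_mul_s x)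

lemma sO_ne {x y : Z} (h : x ≠ y) : star (sO x) * sO y = 0 := Subtype.ext (star_s_mul_s_ne h)

/-- a closed subalgebra generated, as a subtype -/
lemma gen_sub {B : Type} [CStarAlgebra B] (X : Set B) (O : StarSubalgebra ℂ B)
    (hO : IsClosed (O : Set B)) (hX : O = (StarAlgebra.adjoin ℂ X).topologicalClosure)
    (X' : Set O) (hX' : ∀ x ∈ X, ∃ x' ∈ X', (x' : B) = x) (T : StarSubalgebra ℂ O)
    (hT : IsClosed (T : Set O)) (hXT : ∀ x ∈ X', x ∈ T) : T = ⊤ := by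
  have hcl : IsClosed ((T.map O.subtype : StarSubalgebra ℂ B) : Set B) := by
    rw [StarSubalgebra.coe_map]
    exact (hO.isClosedEmbedding_subtypeVal).isClosedMap _ hT
  have hle : O ≤ T.map O.subtype := by
    conv_lhs => rw [hX]
    refine StarSubalgebra.topologicalClosure_minimal (StarAlgebra.adjoin_le ?_) hcl
    intro x hx
    obtain ⟨x', hx', rfl⟩ := hX' x hx
    exact ⟨x', hXT x' hx', rfl⟩
  rw [eq_top_iff]
  rintro ⟨y, hy⟩ _
  obtain ⟨z, hz, hzy⟩ := hle hy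
  have : z = ⟨y, hy⟩ := Subtype.ext hzy
  rw [← this]; exact hz

lemma OO_gen (T : StarSubalgebra ℂ OO) (hT : IsClosed (T : Set OO)) (h : ∀ x, sO x ∈ T) :
    T = ⊤ := by
  refine gen_sub (Set.range sI) OO OO_closed rfl (Set.range sO) ?_ T hT ?_
  · rintro _ ⟨x, rfl⟩
    exact ⟨sO x, ⟨x, rfl⟩, rfl⟩
  · rintro _ ⟨x, rfl⟩
    exact h x

/-- an enumeration of `ℤ` -/
def en : ℕ ≃ Z := (Classical.choice (nonempty_denumerable Z)).eqv.symm

theorem OO_cuntz : IsCuntzInfinity OO := by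
  refine ⟨inferInstance, fun i => sO (en i), fun i => sO_self _,
    fun i j h => sO_ne (fun h' => h (en.injective h')), ?_⟩
  refine OO_gen _ (StarSubalgebra.isClosed_topologicalClosure _) fun x => ?_
  refine StarSubalgebra.le_topologicalClosure _ (StarAlgebra.subset_adjoin ℂ _ ⟨en.symm x, ?_⟩)
  show sO (en (en.symm x)) = sO x
  rw [Equiv.apply_symm_apply]

/-! ### compression in `OO` -/

/-- the word `([], g)` -/
def dv (g : Z) : HH := dlt ((([], g) : Wd Z), ())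

lemma comm_of_gen (t : BB) (h1 : ∀ x, sI x * t = t * sI x) (h2 : ∀ x, sI x * star t = star t * sI x)
    {b : BB} (hb : b ∈ OO) : b * t = t * b := by
  have h : OO ≤ StarSubalgebra.centralizer ℂ {t} := by
    apply OO_le
    · rw [StarSubalgebra.coe_centralizer]
      exact Set.isClosed_centralizer _
    · intro x
      rw [StarSubalgebra.mem_centralizer_iff]
      rintro g rfl
      exact ⟨(h1 x).symm, (h2 x).symm⟩
  have h3 := h hb
  rw [StarSubalgebra.mem_centralizer_iff] at h3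
  exact (h3 t rfl).1.symm

lemma r_comm {b : BB} (hb : b ∈ OO) (k : Z) : b * r Unit k = r Unit k * b := by
  refine comm_of_gen _ (fun x => (r_mul_s k x).symm) (fun x => ?_) hb
  rw [star_r]; exact (r_mul_s _ x).symm

lemma sw_mem (l : List Z) : sw Unit l ∈ OO := by
  induction l with
  | nil => rw [sw_nil]; exact one_mem _
  | cons x l ih => rw [sw_cons]; exact mul_mem (s_mem x) ih

/-- the vacuum vector -/
def Ov : HH := dlt ((Om : Wd Z), ())

lemma Ov_eq : Ov = Vi Z (dlt ()) := (Vi_dlt _).symm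

lemma norm_Ov : ‖Ov‖ = 1 := norm_dlt _

lemma star_s_Ov (x : Z) : star (sI x) Ov = 0 := by
  rw [Ov_eq]; exact star_s_Vi x _

lemma OO_lim {b : BB} (hb : b ∈ OO) {ε : ℝ} (hε : 0 < ε) :
    ∃ F : Finset Z, ∀ x ∉ F, ‖star (sI x) * b * sI x - ⟪Ov, b Ov⟫_ℂ • 1‖ < ε := by
  obtain ⟨F, hF⟩ := Bt_lim (OO_le_DD hb) hε
  refine ⟨F, fun x hx => ?_⟩
  have h1 := hF x hx
  have h2 : E b = ⟪Ov, b Ov⟫_ℂ • 1 := by
    rw [scal (E b), inner_E, ← Ov_eq]
  rwa [h2, map_smul, map_one] at h1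

lemma unit_of_close {A : Type} [CStarAlgebra A] (y : A) (c : ℝ) (hc : 0 < c)
    (h : ‖y - (c : ℂ) • 1‖ < c) : IsUnit y := by
  have hc0 : (c : ℂ) ≠ 0 := by exact_mod_cast hc.ne'
  have h1 : ‖1 - (c : ℂ)⁻¹ • y‖ < 1 := by
    have e : 1 - (c : ℂ)⁻¹ • y = -((c : ℂ)⁻¹ • (y - (c : ℂ) • 1)) := by
      rw [smul_sub, smul_smul, inv_mul_cancel₀ hc0, one_smul]; abel
    rw [e, norm_neg, norm_smul, norm_inv, Complex.norm_real, Real.norm_of_nonneg hc.le,
      inv_mul_lt_iff₀ hc, mul_one]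
    exact h
  have h2 : IsUnit (1 - (1 - (c : ℂ)⁻¹ • y)) := isUnit_one_sub_of_norm_lt_one h1
  rw [sub_sub_cancel] at h2
  have h3 := h2.smul (Units.mk0 _ hc0)
  have h4 : (Units.mk0 _ hc0 : ℂˣ) • ((c : ℂ)⁻¹ • y) = y := by
    show (c : ℂ) • ((c : ℂ)⁻¹ • y) = _
    rw [smul_smul, mul_inv_cancel₀ hc0, one_smul]
  rwa [h4] at h3

lemma OO_compress (b : OO) (hb : b ≠ 0) : ∃ v : OO, star v * (star b * b) * v = 1 := by
  obtain ⟨b, hbO⟩ := b
  have hb0 : b ≠ 0 := fun h => hb (Subtype.ext h)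
  obtain ⟨⟨⟨l, g⟩, ⟨⟩⟩, hw⟩ : ∃ q : Wd Z × Unit, b (dlt q) ≠ 0 := by
    by_contra hcon
    push Not at hcon
    exact hb0 (ext_dlt fun a => by rw [hcon a]; rfl)
  have e1 : (dlt ((l, g), ()) : HH) = r Unit g⁻¹ (dlt ((l, (1 : Z)), ())) := by
    unfold r
    rw [WE_dlt]
    simp [rgt]
  have e2 : (dlt ((l, (1 : Z)), ()) : HH) = sw Unit l Ov := by
    have := sw_dlt (Y := Unit) l (1 : Z) ()
    rw [u_one, mul_one] at this
    exact this.symm
  set b1 : BB := b * sw Unit l with hb1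
  have hb1O : b1 ∈ OO := mul_mem hbO (sw_mem l)
  have hb1n : b1 Ov ≠ 0 := by
    intro h
    apply hw
    have h3 := congrArg (fun T : BB => T (dlt ((l, (1 : Z)), ()))) (r_comm hbO g⁻¹)
    change b (r Unit g⁻¹ (dlt ((l, (1 : Z)), ()))) = r Unit g⁻¹ (b (dlt ((l, (1 : Z)), ()))) at h3
    rw [e1, h3, e2]
    change r Unit g⁻¹ (b1 Ov) = 0
    rw [h, map_zero]
  set c : ℂ := ⟪Ov, (star b1 * b1) Ov⟫_ℂ with hc
  have hc1 : c = ((‖b1 Ov‖ ^ 2 : ℝ) : ℂ) := by
    rw [hc, ContinuousLinearMap.star_eq_adjoint]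
    show ⟪Ov, (ContinuousLinearMap.adjoint b1) (b1 Ov)⟫_ℂ = _
    rw [ContinuousLinearMap.adjoint_inner_right, inner_self_eq_norm_sq_to_K]
    simp
  have hcpos : 0 < ‖b1 Ov‖ ^ 2 := by positivity
  obtain ⟨F, hF⟩ := OO_lim (mul_mem (star_mem hb1O) hb1O) hcpos
  obtain ⟨x, hx⟩ := Infinite.exists_notMem_finset F
  have hFx := hF x hx
  rw [← hc, hc1] at hFx
  have hzO : b1 * sI x ∈ OO := mul_mem hb1O (s_mem x)
  set z : OO := ⟨b1 * sI x, hzO⟩ with hz
  have hzz : ‖star z * z - ((‖b1 Ov‖ ^ 2 : ℝ) : ℂ) • 1‖ < ‖b1 Ov‖ ^ 2 := by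
    have : ‖star z * z - ((‖b1 Ov‖ ^ 2 : ℝ) : ℂ) • 1‖ =
        ‖star (b1 * sI x) * (b1 * sI x) - ((‖b1 Ov‖ ^ 2 : ℝ) : ℂ) • 1‖ := rfl
    rw [this, star_mul]
    convert hFx using 3
    noncomm_ring
  have hunit : IsUnit (star z * z) := unit_of_close _ _ hcpos hzz
  obtain ⟨q, hq⟩ := unit_norm z hunit
  refine ⟨⟨sw Unit l * sI x, mul_mem (sw_mem l) (s_mem x)⟩ * q, ?_⟩
  rw [← hq]
  apply Subtype.ext
  show star (sw Unit l * sI x * (q : BB)) * (star b * b) * (sw Unit l * sI x * (q : BB)) =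
    star (q : BB) * (star (b1 * sI x) * (b1 * sI x)) * (q : BB)
  rw [hb1]
  simp only [star_mul]
  noncomm_ring

lemma OO_simple : SimpleC OO := simple_of_compress OO_compress

lemma OO_pi : PurelyInfinite OO := by
  refine pi_of_compress OO_compress ⟨sO (Multiplicative.ofAdd 0), sO_self _, fun h => ?_⟩
  exact ss_ne_one g01 (congrArg Subtype.val h)

end Pool.Agent.R293.OI
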