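import Pool.Agent.R293.FW2
import Pool.Agent.R293.RFP
import Pool.Agent.R293.OI

/-!
Reduced free powers of `O_∞` with the vacuum state and with a state with a nontrivial centralizer.
-/

set_option autoImplicit false
set_option linter.unusedSectionVars false

noncomputable section

open scoped InnerProductSpace ComplexOrder TensorProduct

namespace Pool.Agent.R293.VP

open Pool.CS Pool.CS.N_amp Pool.Agent.H327R4.Pure Pool.Agent.W658.ZS Pool.Agent.R293.OI
open Pool.Agent.H923R2.FZ (IsRFP)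
open Pool.Agent.R293.FW

section abs

variable {J : Type} {D : J → Type} [∀ j, CStarAlgebra (D j)] {t : ∀ j, D j → ℂ}
  {A : Type} [CStarAlgebra A] {φ : A →ₗ[ℂ] ℂ} {e : ∀ j, D j →⋆ₐ[ℂ] A}

lemma rfp_free (h : IsRFP D t φ e) : ∀ w, Wrd φ e w → w ≠ [] → φ (val e w) = 0 := by
  intro w hw hne
  exact h.free w hne hw.1 (fun z hz => by rw [← h.tr]; exact hw.2 z hz)

variable (h1 : φ 1 = 1) (hfree : ∀ w, Wrd φ e w → w ≠ [] → φ (val e w) = 0)
include h1

lemma mem_V_of_left {l : J} (b : D l) (hb : ∀ c, φ (e l (b * c)) = 0) {z : A}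
    (hz : z ∈ D0 φ e) : e l b * z ∈ V φ e l := by
  induction hz using Submodule.span_induction with
  | mem x h =>
    obtain ⟨w, hw, rfl⟩ := h
    have hb1 : φ (e l b) = 0 := by have := hb 1; rwa [mul_one] at this
    rcases w with _ | ⟨⟨j, c⟩, w⟩
    · have h2 : Wrd φ e [⟨l, b⟩] := Wrd.cons (Wrd_nil φ e) hb1 (by simp)
      have h3 := mem_V h2
      rw [val_cons] at h3
      exact h3
    · by_cases hj : j = l
      · subst hj
        have h2 : Wrd φ e (⟨j, b * c⟩ :: w) := Wrd.cons hw.tail (hb c) (fun y hy => by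
          have := List.isChain_cons.1 hw.1
          exact this.1 y hy)
        have h3 := mem_V h2
        rw [val_cons] at h3
        rw [val_cons, ← mul_assoc]
        show e j b * e j c * val e w ∈ _
        rw [← map_mul]; exact h3
      · have h2 : Wrd φ e (⟨l, b⟩ :: ⟨j, c⟩ :: w) := Wrd.cons hw hb1 (fun y hy => by
          simp only [List.head?_cons, Option.mem_def, Option.some.injEq] at hy
          subst hy
          exact fun h => hj h.symm)
        have h3 := mem_V h2
        rwa [val_cons] at h3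
  | zero => rw [mul_zero]; exact zero_mem _
  | add x y _ _ hx hy => rw [mul_add]; exact add_mem hx hy
  | smul c x _ hx => rw [mul_smul_comm]; exact Submodule.smul_mem _ _ hx

omit h1 in
include hfree in
lemma sandwich (hφ : ∀ x, φ (star x) = star (φ x)) {k l : J} (hkl : k ≠ l) (q : D k)
    (hq : φ (e k q) = 0) {p p' : A} (hp : p ∈ V φ e l) (hp' : p' ∈ V φ e l) :
    φ (star p * (e k q * p')) = 0 := by
  induction hp using Submodule.span_induction with
  | mem x h =>
    obtain ⟨a, w, hw, rfl⟩ := h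
    induction hp' using Submodule.span_induction with
    | mem y h =>
      obtain ⟨b, v, hv, rfl⟩ := h
      have h2 : Wrd φ e (⟨k, q⟩ :: ⟨l, b⟩ :: v) := Wrd.cons hv hq (fun y hy => by
        simp only [List.head?_cons, Option.mem_def, Option.some.injEq] at hy
        subst hy
        exact hkl)
      have h3 : e k q * val e (⟨l, b⟩ :: v) = val e (⟨k, q⟩ :: ⟨l, b⟩ :: v) :=
        (val_cons e ⟨k, q⟩ _).symm
      rw [h3, ← val_adj, ← val_append]
      refine hfree _ ((hw.adj hφ).append h2 ?_) (by simp)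
      intro x hx y hy
      unfold FW.adj at hx
      rw [List.map_cons, List.reverse_cons, List.getLast?_append, List.getLast?_singleton] at hx
      simp only [Option.some_or, Option.mem_def, Option.some.injEq] at hx
      simp only [List.head?_cons, Option.mem_def, Option.some.injEq] at hy
      subst hx; subst hy
      exact hkl.symm
    | zero => rw [mul_zero, mul_zero, map_zero]
    | add x y _ _ hx hy => rw [mul_add, mul_add, map_add, hx, hy, add_zero]
    | smul c x _ hx => rw [mul_smul_comm, mul_smul_comm, map_smul, hx, smul_zero]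
  | zero => rw [star_zero, zero_mul, map_zero]
  | add x y _ _ hx hy => rw [star_add, add_mul, map_add, hx, hy, add_zero]
  | smul c x _ hx => rw [star_smul, smul_mul_assoc, map_smul, hx, smul_zero]

include hfree in
/-- orthogonality of the ranges of vacuum isometries in different factors -/
theorem vac_orth {H : Type} [NormedAddCommGroup H] [InnerProductSpace ℂ H] {Λ : A →ₗ[ℂ] H}
    (hΛ : IsGNS φ Λ) (hgen : (StarAlgebra.adjoin ℂ (⋃ j, Set.range (e j))).topologicalClosure = ⊤)
    (hgns : ∀ a, (∀ x, φ (star (a * x) * (a * x)) = 0) → a = 0)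
    {k l : J} (hkl : k ≠ l) (a : D k) (ha : φ (e k (a * star a)) = 0) (b : D l)
    (hb : ∀ c, φ (e l (b * c)) = 0) : star (e k a) * e l b = 0 := by
  apply hgns
  intro z
  have h0 : ∀ z ∈ D0 φ e, ‖Λ (star (e k a) * e l b * z)‖ = 0 := by
    intro z hz
    have h2 := sandwich hfree hΛ.phi_star hkl (a * star a) ha (mem_V_of_left h1 b hb hz)
      (mem_V_of_left h1 b hb hz)
    have h3 : star (star (e k a) * e l b * z) * (star (e k a) * e l b * z) =
        star (e l b * z) * (e k (a * star a) * (e l b * z)) := by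
      simp only [star_mul, star_star, map_mul, map_star]
      noncomm_ring
    rw [← h3, hΛ.sq] at h2
    have h4 : ‖Λ (star (e k a) * e l b * z)‖ ^ 2 = 0 := by exact_mod_cast h2
    exact pow_eq_zero_iff (two_ne_zero) |>.1 h4
  have h5 : ‖Λ (star (e k a) * e l b * z)‖ = 0 := by
    refine le_antisymm (le_of_forall_pos_le_add fun ε hε => ?_) (norm_nonneg _)
    obtain ⟨y, hy, hzy⟩ := D0_dense (φ := φ) h1 hgen z
      (ε := ε / (‖star (e k a) * e l b‖ + 1)) (by positivity)
    have e1 : Λ (star (e k a) * e l b * z) = Λ (star (e k a) * e l b * y) +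
        Λ (star (e k a) * e l b * (z - y)) := by rw [← map_add]; congr 1; noncomm_ring
    rw [e1]
    refine (norm_add_le _ _).trans ?_
    rw [h0 y hy]
    have h6 : ‖Λ (star (e k a) * e l b * (z - y))‖ ≤ ‖star (e k a) * e l b‖ * ‖z - y‖ :=
      (hΛ.le h1 _).trans (norm_mul_le _ _)
    have h7 : ‖star (e k a) * e l b‖ * ‖z - y‖ ≤
        (‖star (e k a) * e l b‖ + 1) * (ε / (‖star (e k a) * e l b‖ + 1)) := by
      gcongr
      linarith
    rw [mul_div_cancel₀ _ (by positivity)] at h7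
    linarith
  rw [hΛ.sq, h5]; simp

end abs

/-! ### the states -/

/-- a vector functional on `OO` -/
def vec (v : HH) : OO →ₗ[ℂ] ℂ where
  toFun x := ⟪v, (x : BB) v⟫_ℂ
  map_add' x y := by
    show ⟪v, ((x : BB) + y) v⟫_ℂ = _
    rw [add_apply, inner_add_right]
  map_smul' c x := by
    show ⟪v, (c • (x : BB)) v⟫_ℂ = _
    rw [smul_apply, inner_smul_right]; rfl

lemma vec_apply (v : HH) (x : OO) : vec v x = ⟪v, (x : BB) v⟫_ℂ := rfl

lemma star_inner (x : BB) (v w : HH) : ⟪v, (star x) w⟫_ℂ = ⟪x v, w⟫_ℂ := by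
  rw [ContinuousLinearMap.star_eq_adjoint, ContinuousLinearMap.adjoint_inner_right]

lemma vec_nonneg (v : HH) (x : OO) : 0 ≤ vec v (star x * x) := by
  have h : vec v (star x * x) = ((‖(x : BB) v‖ ^ 2 : ℝ) : ℂ) := by
    show ⟪v, (star (x : BB)) ((x : BB) v)⟫_ℂ = _
    rw [star_inner, inner_self_eq_norm_sq_to_K]; simp
  rw [h, Complex.zero_le_real]
  positivity

lemma vec_one {v : HH} (hv : ‖v‖ = 1) : vec v 1 = 1 := by
  show ⟪v, v⟫_ℂ = 1
  rw [inner_self_eq_norm_sq_to_K, hv]; simp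

/-- the vacuum state -/
def om1 : OO →ₗ[ℂ] ℂ := vec Ov

lemma om1_one : om1 1 = 1 := vec_one norm_Ov

lemma om1_nonneg (x : OO) : 0 ≤ om1 (star x * x) := vec_nonneg _ x

lemma om1_s (x : Z) (c : OO) : om1 (sO x * c) = 0 := by
  show ⟪Ov, sI x ((c : BB) Ov)⟫_ℂ = 0
  have h : sI x = star (star (sI x)) := (star_star _).symm
  rw [h, star_inner, star_s_Ov, inner_zero_left]

/-- a letter -/
def g0 : Z := Multiplicative.ofAdd 0

/-- the one-particle vector -/
def v1 : HH := sI g0 Ov

lemma norm_v1 : ‖v1‖ = 1 := by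
  show ‖Ext _ _ Ov‖ = 1
  rw [norm_Ext]; exact norm_Ov

/-- the second state -/
def om2 : OO →ₗ[ℂ] ℂ := (1 / 2 : ℂ) • (vec Ov + vec v1)

lemma om2_apply (x : OO) : om2 x = (1 / 2 : ℂ) * (vec Ov x + vec v1 x) := rfl

lemma om2_one : om2 1 = 1 := by
  rw [om2_apply, vec_one norm_Ov, vec_one norm_v1]; norm_num

lemma om2_nonneg (x : OO) : 0 ≤ om2 (star x * x) := by
  rw [om2_apply]
  have h1 := vec_nonneg Ov x
  have h2 := vec_nonneg v1 x
  have h3 : (0 : ℂ) ≤ 1 / 2 := by
    have : (1 / 2 : ℂ) = ((1 / 2 : ℝ) : ℂ) := by push_cast; rfl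
    rw [this, Complex.zero_le_real]; norm_num
  exact mul_nonneg h3 (add_nonneg h1 h2)

/-- the projection in the centralizer of `om2` -/
def pr : OO := sO g0 * star (sO g0)

lemma pr_star : star pr = pr := by unfold pr; rw [star_mul, star_star]

lemma pr_pr : pr * pr = pr := by
  unfold pr
  calc sO g0 * star (sO g0) * (sO g0 * star (sO g0)) = sO g0 * (star (sO g0) * sO g0) *
        star (sO g0) := by noncomm_ring
    _ = _ := by rw [sO_self, mul_one]

lemma pr_Ov : (pr : BB) Ov = 0 := by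
  show sI g0 ((star (sI g0)) Ov) = 0
  rw [star_s_Ov, map_zero]

lemma pr_v1 : (pr : BB) v1 = v1 := by
  show sI g0 ((star (sI g0) * sI g0) Ov) = sI g0 Ov
  rw [star_s_mul_s]; rfl

lemma vec_pr_left (v : HH) (x : OO) : vec v (pr * x) = ⟪(pr : BB) v, (x : BB) v⟫_ℂ := by
  show ⟪v, (pr : BB) ((x : BB) v)⟫_ℂ = _
  have h : (pr : BB) = star (pr : BB) := (congrArg Subtype.val pr_star).symm
  conv_lhs => rw [h]
  rw [star_inner]

lemma vec_pr_right (v : HH) (x : OO) : vec v (x * pr) = ⟪v, (x : BB) ((pr : BB) v)⟫_ℂ := rfl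

lemma om2_pr (x : OO) : om2 (pr * x) = om2 (x * pr) := by
  rw [om2_apply, om2_apply, vec_pr_left, vec_pr_left, vec_pr_right, vec_pr_right, pr_Ov, pr_v1,
    inner_zero_left, map_zero, inner_zero_right]

lemma om2_pr_val : om2 pr = 1 / 2 := by
  have h := om2_pr 1
  rw [om2_apply]
  have h1 := vec_pr_left Ov 1
  have h2 := vec_pr_left v1 1
  rw [mul_one] at h1 h2
  rw [h1, h2, pr_Ov, pr_v1, inner_zero_left]
  show (1 / 2 : ℂ) * (0 + ⟪v1, v1⟫_ℂ) = _
  rw [inner_self_eq_norm_sq_to_K, norm_v1]; simp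

/-- the unitary in the centralizer of `om2` -/
def wu : OO := pr + pr - 1

lemma wu_star : star wu = wu := by
  unfold wu
  rw [star_sub, star_add, pr_star, star_one]

lemma wu_wu : wu * wu = 1 := by
  unfold wu
  have h : (pr + pr - 1) * (pr + pr - 1) = (pr * pr - pr) + (pr * pr - pr) + (pr * pr - pr) +
      (pr * pr - pr) + 1 := by noncomm_ring
  rw [h, pr_pr]; simp

lemma om2_wu : om2 wu = 0 := by
  unfold wu
  rw [map_sub, map_add, om2_pr_val, om2_one]; norm_num

lemma wu_comm_abs {R : Type} [Ring R] [Algebra ℂ R] (m : R →ₗ[ℂ] ℂ) (p : R)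
    (hp : ∀ x, m (p * x) = m (x * p)) (x : R) : m ((p + p - 1) * x) = m (x * (p + p - 1)) := by
  rw [sub_mul, mul_sub, add_mul, mul_add, map_sub, map_sub, map_add, map_add, hp, one_mul,
    mul_one]

lemma om2_wu_comm (x : OO) : om2 (wu * x) = om2 (x * wu) := wu_comm_abs om2 pr om2_pr x

/-- an enumeration -/
def en2 : ℕ ≃ ℕ × Z := (Classical.choice (nonempty_denumerable (ℕ × Z))).eqv.symm

section first

variable {A : Type} [CStarAlgebra A] {φ : A →ₗ[ℂ] ℂ} {e : ℕ → OO →⋆ₐ[ℂ] A}
  (h : IsRFP (J := ℕ) (fun _ => OO) (fun _ => (om1 : OO → ℂ)) φ e)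
include h

/-- the generators of the first algebra -/
lemma gens : ∃ s : ℕ → A, (∀ i j, star (s i) * s j = if i = j then 1 else 0) ∧
    (∀ i y, φ (s i * y) = 0) ∧
    ∀ S : StarSubalgebra ℂ A, IsClosed (S : Set A) → (∀ i, s i ∈ S) → S = ⊤ := by
  obtain ⟨I, Λ, hΛ⟩ := exists_gns φ h.one h.nonneg
  refine ⟨fun i => e (en2 i).1 (sO (en2 i).2), fun i j => ?_, fun i y => ?_, fun S hS hi => ?_⟩
  · show star (e (en2 i).1 (sO (en2 i).2)) * e (en2 j).1 (sO (en2 j).2) = _
    by_cases hk : (en2 i).1 = (en2 j).1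
    · rw [hk, ← map_star, ← map_mul]
      by_cases hx : (en2 i).2 = (en2 j).2
      · have hij : i = j := en2.injective (Prod.ext hk hx)
        rw [if_pos hij, hx, sO_self, map_one]
      · have hij : i ≠ j := fun hij => hx (by rw [hij])
        rw [if_neg hij, sO_ne hx, map_zero]
    · have hij : i ≠ j := fun hij => hk (by rw [hij])
      rw [if_neg hij]
      refine vac_orth (D := fun _ : ℕ => OO) (φ := φ) (e := e) h.one (rfp_free h) hΛ h.gen h.gns hk
        (sO (en2 i).2) ?_ (sO (en2 j).2) ?_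
      · rw [h.tr]; exact om1_s _ _
      · intro c
        rw [h.tr]; exact om1_s _ _
  · -- `φ (s y) = 0`
    have h0 : φ (e (en2 i).1 (sO (en2 i).2) * star (e (en2 i).1 (sO (en2 i).2))) = 0 := by
      rw [← map_star, ← map_mul, h.tr]; exact om1_s _ _
    have h1 : ‖Λ (star (e (en2 i).1 (sO (en2 i).2)))‖ = 0 := by
      have h2 := hΛ.sq (star (e (en2 i).1 (sO (en2 i).2)))
      rw [star_star, h0] at h2
      have h3 : ‖Λ (star (e (en2 i).1 (sO (en2 i).2)))‖ ^ 2 = 0 := by exact_mod_cast h2.symm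
      exact pow_eq_zero_iff (two_ne_zero) |>.1 h3
    have h2 := hΛ.inner (star (e (en2 i).1 (sO (en2 i).2))) y
    rw [star_star, norm_eq_zero.1 h1, inner_zero_left] at h2
    exact h2.symm
  · have hk : ∀ k, ∀ x : OO, e k x ∈ S := by
      intro k x
      have h1 : S.comap (e k) = ⊤ := by
        apply OO_gen
        · exact hS.preimage (star_hom_continuous (e k))
        · intro x
          show e k (sO x) ∈ S
          have := hi (en2.symm (k, x))
          simpa using this
      have h2 : x ∈ S.comap (e k) := by rw [h1]; exact StarSubalgebra.mem_top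
      exact h2
    rw [eq_top_iff, ← h.gen]
    refine StarSubalgebra.topologicalClosure_minimal (StarAlgebra.adjoin_le ?_) hS
    intro y hy
    rw [Set.mem_iUnion] at hy
    obtain ⟨k, x, rfl⟩ := hy
    exact hk k x

end first

/-- the scalars -/
def sc (T : Type) [CStarAlgebra T] : ℂ →⋆ₐ[ℂ] T :=
  { Algebra.ofId ℂ T with
    map_star' := fun c => by
      show algebraMap ℂ T (star c) = star (algebraMap ℂ T c)
      exact (algebraMap_star_comm c) }

/-- approximately central isometries -/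
theorem central_isoms' {A : Type} [CStarAlgebra A] (s : ℕ → A)
    (hs : ∀ i j, star (s i) * s j = if i = j then 1 else 0)
    (hgen : ∀ S : StarSubalgebra ℂ A, IsClosed (S : Set A) → (∀ i, s i ∈ S) → S = ⊤)
    (F : Finset A) {ε : ℝ} (hε : 0 < ε) :
    ∃ t : Fin 2 → A, (∀ i, star (t i) * t i = 1) ∧ star (t 0) * t 1 = 0 ∧
      ∀ i, ∀ x ∈ F, ‖t i * x - x * t i‖ < ε := by
  refine central_isoms s hs hgen (sc A) (StarAlgHom.id ℂ A) ?_ ?_ F hε
  · intro c b
    exact Algebra.commutes c b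
  · have : Function.Surjective (Pool.Agent.H188R3.prodMap (sc A) (StarAlgHom.id ℂ A)) := by
      intro b
      refine ⟨1 ⊗ₜ b, ?_⟩
      rw [Pool.Agent.H188R3.prodMap_tmul, map_one, one_mul]; rfl
    exact this.denseRange

/-- the two free powers are not isomorphic -/
theorem not_iso {A B : Type} [CStarAlgebra A] [CStarAlgebra B] {φ : A →ₗ[ℂ] ℂ}
    {e : ℕ → OO →⋆ₐ[ℂ] A} {ψ : B →ₗ[ℂ] ℂ} {f : ℕ → OO →⋆ₐ[ℂ] B}
    (h : IsRFP (J := ℕ) (fun _ => OO) (fun _ => (om1 : OO → ℂ)) φ e)
    (h' : IsRFP (J := ℕ) (fun _ => OO) (fun _ => (om2 : OO → ℂ)) ψ f) :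
    IsEmpty (A ≃⋆ₐ[ℂ] B) := by
  classical
  constructor
  intro θ
  obtain ⟨s, hs, -, hgen⟩ := gens h
  obtain ⟨t, ht1, ht2, ht3⟩ := central_isoms' s hs hgen
    (Finset.univ.image fun m : Fin 3 => θ.symm (f (m : ℕ) wu)) (ε := 1 / 100) (by norm_num)
  obtain ⟨I, Λ, hΛ⟩ := exists_gns ψ h'.one h'.nonneg
  refine no_isoms (D := fun _ : ℕ => OO) (φ := ψ) (e := f) h'.one (rfp_free h') hΛ h'.gen
    (fun m : Fin 3 => (m : ℕ)) Fin.val_injective (fun _ => wu) (fun _ => by rw [wu_star, wu_wu])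
    (fun _ => by rw [wu_star, wu_wu]) (fun m => by rw [h'.tr]; exact om2_wu)
    (fun m x => by rw [h'.tr, h'.tr]; exact om2_wu_comm x) (fun i => θ (t i)) ?_ ?_ ?_
  · intro i
    rw [← map_star, ← map_mul, ht1, map_one]
  · rw [← map_star, ← map_mul, ht2, map_zero]
  · intro i m
    have h1 := ht3 i (θ.symm (f (m : ℕ) wu)) (Finset.mem_image_of_mem _ (Finset.mem_univ m))
    have h2 : θ (t i) * f (m : ℕ) wu - f (m : ℕ) wu * θ (t i) =
        θ (t i * θ.symm (f (m : ℕ) wu) - θ.symm (f (m : ℕ) wu) * t i) := by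
      rw [map_sub, map_mul, map_mul, StarAlgEquiv.apply_symm_apply]
    rw [h2]
    exact (Pool.Agent.H188R3.norm_map_le' (θ : A →⋆ₐ[ℂ] B) _).trans h1.le

end Pool.Agent.R293.VP
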