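import Pool.Agent.R293.VP

/-!
The centralizer of the free power of the vacuum state is trivial.
-/

set_option autoImplicit false
set_option linter.unusedSectionVars false

noncomputable section

open scoped InnerProductSpace ComplexOrder TensorProduct

namespace Pool.Agent.R293.VP

open Pool.CS Pool.CS.N_amp Pool.Agent.H327R4.Pure Pool.Agent.W658.ZS Pool.Agent.R293.OI
open Pool.Agent.H923R2.FZ (IsRFP)
open Pool.Agent.R293.FW

section words

variable {A : Type} [CStarAlgebra A] (s : ℕ → A)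
  (hs : ∀ i j, star (s i) * s j = if i = j then 1 else 0)

/-- products of isometries -/
def sq (l : List ℕ) : A := (l.map s).prod

lemma sq_nil : sq s [] = 1 := rfl

lemma sq_cons (x : ℕ) (l : List ℕ) : sq s (x :: l) = s x * sq s l := by
  unfold sq; simp

lemma sq_append (l l' : List ℕ) : sq s (l ++ l') = sq s l * sq s l' := by
  unfold sq; simp

include hs in
lemma star_sq_mul_sq (b c : List ℕ) : star (sq s b) * sq s c = 0 ∨
    (∃ d, star (sq s b) * sq s c = sq s d) ∨ ∃ d, star (sq s b) * sq s c = star (sq s d) := by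
  induction b generalizing c with
  | nil => right; left; exact ⟨c, by rw [sq_nil, star_one, one_mul]⟩
  | cons x b ih =>
    rcases c with _ | ⟨y, c⟩
    · right; right; exact ⟨x :: b, by rw [sq_nil, mul_one]⟩
    · have e : star (sq s (x :: b)) * sq s (y :: c) =
          star (sq s b) * (star (s x) * s y) * sq s c := by
        rw [sq_cons, sq_cons, star_mul]; noncomm_ring
      by_cases h : x = y
      · subst h
        rw [e, hs, if_pos rfl, mul_one]
        exact ih c
      · left
        rw [e, hs, if_neg h]; simp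

/-- the words in the generators -/
def PQ : Set A := {p | p = 0 ∨ ∃ a b, p = sq s a * star (sq s b)}

lemma PQ_one : (1 : A) ∈ PQ s := Or.inr ⟨[], [], by rw [sq_nil, star_one, one_mul]⟩

lemma PQ_star {p : A} (hp : p ∈ PQ s) : star p ∈ PQ s := by
  rcases hp with rfl | ⟨a, b, rfl⟩
  · left; simp
  · right
    exact ⟨b, a, by rw [star_mul, star_star]⟩

include hs in
lemma PQ_mul {p q : A} (hp : p ∈ PQ s) (hq : q ∈ PQ s) : p * q ∈ PQ s := by
  rcases hp with rfl | ⟨a, b, rfl⟩
  · left; simp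
  rcases hq with rfl | ⟨c, d, rfl⟩
  · left; simp
  have e : sq s a * star (sq s b) * (sq s c * star (sq s d)) =
      sq s a * (star (sq s b) * sq s c) * star (sq s d) := by noncomm_ring
  rw [e]
  rcases star_sq_mul_sq s hs b c with h0 | ⟨c', h1⟩ | ⟨b', h2⟩
  · left; rw [h0]; simp
  · right
    exact ⟨a ++ c', d, by rw [h1, sq_append]⟩
  · right
    refine ⟨a, d ++ b', ?_⟩
    rw [h2, sq_append, star_mul]; noncomm_ring

include hs in
lemma span_mul {x y : A} (hx : x ∈ Submodule.span ℂ (PQ s)) (hy : y ∈ Submodule.span ℂ (PQ s)) :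
    x * y ∈ Submodule.span ℂ (PQ s) := by
  have h1 : x * y ∈ Submodule.span ℂ (PQ s) * Submodule.span ℂ (PQ s) :=
    Submodule.mul_mem_mul hx hy
  rw [Submodule.span_mul_span] at h1
  refine Submodule.span_mono ?_ h1
  rintro x ⟨y, hy, z, hz, rfl⟩
  exact PQ_mul s hs hy hz

/-- the span of the words -/
def SPQ (hs : ∀ i j, star (s i) * s j = if i = j then 1 else 0) : StarSubalgebra ℂ A where
  carrier := (Submodule.span ℂ (PQ s) : Set A)
  mul_mem' := fun ha hb => span_mul s hs ha hb
  add_mem' := fun ha hb => add_mem ha hb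
  algebraMap_mem' := fun c => by
    show algebraMap ℂ A c ∈ Submodule.span ℂ (PQ s)
    rw [Algebra.algebraMap_eq_smul_one]
    exact Submodule.smul_mem _ _ (Submodule.subset_span (PQ_one s))
  star_mem' := by
    intro a ha
    show star a ∈ Submodule.span ℂ (PQ s)
    have ha' : a ∈ Submodule.span ℂ (PQ s) := ha
    induction ha' using Submodule.span_induction with
    | mem x hx => exact Submodule.subset_span (PQ_star s hx)
    | zero => rw [star_zero]; exact zero_mem _
    | add x y hx hy ihx ihy => rw [star_add]; exact add_mem (ihx hx) (ihy hy)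
    | smul c x hx ih => rw [star_smul]; exact Submodule.smul_mem _ _ (ih hx)

/-- the centralizer of a vacuum state is trivial -/
theorem vac_centralizer (φ : A →ₗ[ℂ] ℂ) (h1 : φ 1 = 1) (hpos : ∀ x, 0 ≤ φ (star x * x))
    (hv : ∀ i y, φ (s i * y) = 0)
    (hgen : ∀ S : StarSubalgebra ℂ A, IsClosed (S : Set A) → (∀ i, s i ∈ S) → S = ⊤)
    (hs : ∀ i j, star (s i) * s j = if i = j then 1 else 0)
    (h : A) (hc : ∀ x, φ (h * x) = φ (x * h)) (x : A) : φ (x * h) = φ x * φ h := by
  obtain ⟨I, Λ, hΛ⟩ := exists_gns φ h1 hpos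
  have hv' : ∀ i y, φ (y * star (s i)) = 0 := by
    intro i y
    have h2 : y * star (s i) = star (s i * star y) := by rw [star_mul, star_star]
    rw [h2, hΛ.phi_star, hv, star_zero]
  have hw : ∀ a, a ≠ [] → ∀ y, φ (sq s a * y) = 0 := by
    intro a ha y
    rcases a with _ | ⟨i, a⟩
    · exact absurd rfl ha
    · rw [sq_cons, mul_assoc]; exact hv _ _
  have hw' : ∀ a, a ≠ [] → ∀ y, φ (y * star (sq s a)) = 0 := by
    intro a ha y
    rcases a with _ | ⟨i, a⟩
    · exact absurd rfl ha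
    · rw [sq_cons, star_mul, ← mul_assoc]; exact hv' _ _
  have h0 : ∀ x ∈ Submodule.span ℂ (PQ s), φ (x * h) = φ x * φ h := by
    intro x hx
    induction hx using Submodule.span_induction with
    | mem x hx =>
      rcases hx with rfl | ⟨a, b, rfl⟩
      · simp
      · by_cases ha : a = []
        · subst ha
          rw [sq_nil, one_mul]
          by_cases hb : b = []
          · subst hb
            rw [sq_nil, star_one, one_mul, h1, one_mul]
          · have e1 := hw' b hb 1
            rw [one_mul] at e1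
            rw [← hc, hw' b hb, e1, zero_mul]
        · rw [mul_assoc, hw a ha, hw a ha, zero_mul]
    | zero => simp
    | add x y _ _ hx hy => rw [add_mul, map_add, map_add, hx, hy]; ring
    | smul c x _ hx => rw [smul_mul_assoc, map_smul, map_smul, hx, smul_eq_mul, smul_eq_mul]; ring
  have hd : ∀ ε : ℝ, 0 < ε → ∃ y ∈ Submodule.span ℂ (PQ s), ‖x - y‖ < ε := by
    intro ε hε
    have h2 : (SPQ s hs).topologicalClosure = ⊤ := by
      apply hgen
      · exact StarSubalgebra.isClosed_topologicalClosure _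
      · intro i
        refine StarSubalgebra.le_topologicalClosure _ (Submodule.subset_span (Or.inr ⟨[i], [], ?_⟩))
        rw [sq_cons, sq_nil, star_one, mul_one, mul_one]
    have h3 : x ∈ closure ((SPQ s hs : StarSubalgebra ℂ A) : Set A) := by
      rw [← StarSubalgebra.topologicalClosure_coe, h2]; exact StarSubalgebra.mem_top
    obtain ⟨y, hy, hxy⟩ := Metric.mem_closure_iff.1 h3 ε hε
    exact ⟨y, hy, by rwa [← dist_eq_norm]⟩
  have h5 : ‖φ (x * h) - φ x * φ h‖ ≤ 0 := by
    refine le_of_forall_pos_le_add fun ε hε => ?_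
    obtain ⟨y, hy, hxy⟩ := hd (ε / (2 * ‖h‖ + 1)) (by positivity)
    have e1 : φ (x * h) - φ x * φ h = φ ((x - y) * h) - φ (x - y) * φ h := by
      rw [sub_mul, map_sub, map_sub, h0 y hy]; ring
    rw [e1]
    have h6 : ‖φ ((x - y) * h)‖ ≤ ‖x - y‖ * ‖h‖ := (hΛ.phi_le h1 _).trans (norm_mul_le _ _)
    have h7 : ‖φ (x - y) * φ h‖ ≤ ‖x - y‖ * ‖h‖ := by
      rw [norm_mul]
      exact mul_le_mul (hΛ.phi_le h1 _) (hΛ.phi_le h1 _) (norm_nonneg _) (norm_nonneg _)
    have h8 : ‖x - y‖ * (2 * ‖h‖ + 1) ≤ ε := by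
      rw [← le_div_iff₀ (by positivity)]; exact hxy.le
    calc ‖φ ((x - y) * h) - φ (x - y) * φ h‖ ≤ ‖φ ((x - y) * h)‖ + ‖φ (x - y) * φ h‖ :=
          norm_sub_le _ _
      _ ≤ ‖x - y‖ * ‖h‖ + ‖x - y‖ * ‖h‖ := add_le_add h6 h7
      _ ≤ ‖x - y‖ * (2 * ‖h‖ + 1) := by nlinarith [norm_nonneg (x - y)]
      _ ≤ 0 + ε := by linarith
  exact sub_eq_zero.1 (norm_le_zero_iff.1 h5)

end words

/-- no state preserving isomorphism from a reduced free product with a factor whose state has a
nontrivial centralizer element to the free power of the vacuum state -/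
theorem no_state_iso {A : Type} [CStarAlgebra A] {φ : A →ₗ[ℂ] ℂ} {e : ℕ → OO →⋆ₐ[ℂ] A}
    (h : IsRFP (J := ℕ) (fun _ => OO) (fun _ => (om1 : OO → ℂ)) φ e)
    {J : Type} {D : J → Type} [∀ j, CStarAlgebra (D j)] {t : ∀ j, D j → ℂ}
    {B : Type} [CStarAlgebra B] {ψ : B →ₗ[ℂ] ℂ} {f : ∀ j, D j →⋆ₐ[ℂ] B} (h' : IsRFP D t ψ f)
    (k : J) (a : D k) (hc : ∀ x, t k (a * x) = t k (x * a)) (hne : t k (a * a) ≠ t k a * t k a)
    (θ : B ≃⋆ₐ[ℂ] A) (hθ : ∀ x, φ (θ x) = ψ x) : False := by
  obtain ⟨s, hs, hv, hgen⟩ := gens h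
  obtain ⟨I, Λ, hΛ⟩ := exists_gns ψ h'.one h'.nonneg
  have hcen : ∀ y, ψ (f k a * y) = ψ (y * f k a) := fun y =>
    central h'.one (rfp_free h') hΛ.phi_star hΛ h'.gen a
      (fun x => by rw [h'.tr, h'.tr]; exact hc x) y
  have h2 := vac_centralizer s φ h.one h.nonneg hv hgen hs (θ (f k a)) (fun x => by
    obtain ⟨y, rfl⟩ : ∃ y, θ y = x := ⟨θ.symm x, θ.apply_symm_apply x⟩
    rw [← map_mul, ← map_mul, hθ, hθ]
    exact hcen y) (θ (f k a))
  rw [← map_mul, hθ, hθ, ← map_mul, h'.tr, h'.tr] at h2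
  exact hne h2

end Pool.Agent.R293.VP
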